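import Mathlib

namespace Pool.Agent.MP_34f9b1_co.Cor

section defs
variable {R : Type} [CommRing R]

/-- Eight times the area left after the three largest pieces (scale 1024). -/
def r8 (s x y z : R) : R := 2048 * (2048 - s) * (1048576 - 2 * (x ^ 2 + y ^ 2 + z ^ 2))

/-- Eight times the first lower bound for the capacity. -/
def p1 (s t h : R) : R :=
  1024 * (8 * (1024 - s) * (1024 - h) * t + 4 * s * t ^ 2) - (1048576 - s ^ 2) * (1024 - h) ^ 2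

/-- Eight times the second lower bound for the capacity. -/
def p2 (s t h : R) : R :=
  4096 * (1024 - s) * (1024 - h) * t + 4194304 * t ^ 2 - s * (1024 - s) * (1024 - h) ^ 2

/-- The failure of the strategy with the largest piece at the apex. -/
def hB (s x y z v g : R) : R :=
  1024 * (4 * g * (2048 * (1024 - y) - (2048 - s) * (z + v)) +
    8 * (1024 - s) * (1024 - v) * (1024 - x - y - g) + 4 * s * ((1024 - y) ^ 2 - x ^ 2) -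
    8 * s * g * (1024 - y) - (1024 - s) * (1024 - v - 2 * x) ^ 2) - s * 16777216 - r8 s x y z +
    4096 * (2048 - s) * v ^ 2

/-- Twice the room left in the bottom row after three pieces. -/
def c2 (s x y z : R) : R := 2048 * (1024 - x) - (2048 - s) * (y + z)

/-- Area forced in a row with room `L / 8192`. -/
def hQ (s v f L : R) : R := 1024 * (4 * (2048 - s) * v * (v - f) + f * (L - 4 * s * f))

/-- The inequalities; each is of the form `hy j ≤ 0`. -/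
def hy (j : ℕ) (s x y z v f : R) : R :=
  match j with
  | 0 => 8589934592 * (z - y)
  | 1 => 8589934592 * (y - x)
  | 2 => 8589934592 * (v - z)
  | 3 => 8589934592 * (f - v)
  | 4 => 8388608 * (2 * (x ^ 2 + y ^ 2 + z ^ 2 + v ^ 2) - 1048576)
  | 5 => 8589934592 * (x + y - 1024)
  | 6 => hB s x y z v v
  | 7 => hB s x y z v (1024 - x - y)
  | 8 => 4194304 * c2 s x y z
  | 9 => -(4194304 * c2 s x y z)
  | 10 => 0
  | 11 => p2 s (1024 - x - z) z - r8 s x y z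
  | 12 => 4194304 * (2048 * (1024 - x - z) - s * (1024 - z))
  | 13 => 4294967296 * (1024 - z - 2 * (1024 - x - z))
  | 14 => hQ s v f (4 * (1024 - s) * (1024 - z) + 8192 * (1024 - x - z)) - r8 s x y z
  | 15 => 8589934592 * (1024 - x - z - f)
  | 16 => hQ s v f (4 * (1024 - s) * (1024 - z) + 8192 * (1024 - x - z)) +
      p2 s (1024 - x - z - f) f - r8 s x y z
  | 17 => 4096 * (2048 - s) * v ^ 2 + p1 s (1024 - x - f) f - r8 s x y z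
  | 18 => hQ s v f (4 * c2 s x y z) + p1 s (1024 - x - f) f - r8 s x y z
  | 19 => 0
  | 20 => 0
  | 21 => 4096 * (2048 - s) * v ^ 2 + p2 s (1024 - x - z - f) f - r8 s x y z
  | 22 => hQ s v f (8 * (1024 - s) * (1024 - z) + 8 * s * (1024 - x - z)) - r8 s x y z
  | 23 => hQ s v f (8 * (1024 - s) * (1024 - z) + 8 * s * (1024 - x - z)) +
      p1 s (1024 - x - z - f) f - r8 s x y z
  | 24 => hQ s v f (8 * (1024 - s) * (1024 - z) + 8 * s * (1024 - x - z)) +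
      p2 s (1024 - x - z - f) f - r8 s x y z
  | 25 => 4294967296 * (1024 - f - 2 * (1024 - x - z - f))
  | _ => 0

/-- A combination of the inequalities. -/
def H : List (ℕ × ℕ) → R → R → R → R → R → R → R
  | [], _, _, _, _, _, _ => 0
  | p :: l, s, x, y, z, v, f => (p.2 : R) * hy p.1 s x y z v f + H l s x y z v f

end defs

/-- Curvature bounds of the inequalities. -/
def cv (j i : ℕ) : ℕ :=
  ([[0, 0, 0, 0, 0, 0], [0, 0, 0, 0, 0, 0], [0, 0, 0, 0, 0, 0], [0, 0, 0, 0, 0, 0],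
    [0, 16, 16, 16, 16, 0], [0, 0, 0, 0, 0, 0], [0, 4, 8, 8, 7, 0], [0, 4, 16, 8, 7, 0],
    [0, 0, 0, 0, 0, 0], [0, 0, 0, 0, 0, 0], [0, 0, 0, 0, 0, 0], [1, 12, 8, 16, 0, 0],
    [0, 0, 0, 0, 0, 0], [0, 0, 0, 0, 0, 0], [0, 8, 8, 8, 8, 0], [0, 0, 0, 0, 0, 0],
    [1, 12, 8, 12, 8, 8], [1, 8, 8, 8, 8, 7], [1, 8, 8, 8, 8, 7], [0, 0, 0, 0, 0, 0],
    [0, 0, 0, 0, 0, 0], [1, 12, 8, 12, 8, 8], [0, 8, 8, 8, 8, 0], [1, 8, 8, 8, 8, 7],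
    [1, 12, 8, 12, 8, 8], [0, 0, 0, 0, 0, 0]].getD j []).getD i 0

/-- Curvature bound of a combination. -/
def CC (i : ℕ) : List (ℕ × ℕ) → ℕ
  | [] => 0
  | p :: l => p.2 * (cv p.1 i * 1048576) + CC i l

/-- A quadratic function with leading coefficient at most `c`. -/
def Qd (φ : ℝ → ℝ) (c : ℝ) : Prop :=
  φ 1 + φ (-1) - 2 * φ 0 ≤ 2 * c ∧
    ∀ u, 2 * φ u = (φ 1 + φ (-1) - 2 * φ 0) * u ^ 2 + (φ 1 - φ (-1)) * u + 2 * φ 0

theorem Qd.le {φ : ℝ → ℝ} {c a b t e : ℝ} (h : Qd φ c) (hc : 0 ≤ c) (h1 : a ≤ t) (h2 : t ≤ b)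
    (ha : e ≤ φ a) (hb : e ≤ φ b) : e - c * (b - a) ^ 2 / 4 ≤ φ t := by
  obtain ⟨hα, hφ⟩ := h
  rcases (h1.trans h2).eq_or_lt with e0 | hab
  · subst e0
    rw [le_antisymm h2 h1]
    simpa using ha
  refine le_of_mul_le_mul_left ?_ (sub_pos.2 hab)
  have k1 := mul_le_mul_of_nonneg_left ha (sub_nonneg.2 h2)
  have k2 := mul_le_mul_of_nonneg_left hb (sub_nonneg.2 h1)
  have k3 := mul_nonneg (mul_nonneg (sub_nonneg.2 hα) (sub_pos.2 hab).le)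
    (mul_nonneg (sub_nonneg.2 h1) (sub_nonneg.2 h2))
  have k4 := mul_nonneg (mul_nonneg hc (sub_pos.2 hab).le) (sq_nonneg (a + b - 2 * t))
  have e1 := congrArg ((b - t) * ·) (hφ a)
  have e2 := congrArg ((t - a) * ·) (hφ b)
  have e3 := congrArg ((b - a) * ·) (hφ t)
  linarith

theorem Qd.sum {g : ℕ → ℝ → ℝ} {G : List (ℕ × ℕ) → ℝ → ℝ} {i : ℕ} (h0 : ∀ u, G [] u = 0)
    (h1 : ∀ p l u, G (p :: l) u = p.2 * g p.1 u + G l u)
    (hg : ∀ j, j < 26 → Qd (g j) (cv j i * 1048576)) :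
    ∀ l, (∀ p ∈ l, p.1 < 26) → Qd (G l) (CC i l)
  | [], _ => by simp [Qd, h0, CC]
  | p :: l, hl => by
    obtain ⟨a1, a2⟩ := hg p.1 (hl p (by simp))
    obtain ⟨b1, b2⟩ := Qd.sum h0 h1 hg l fun q hq => hl q (by simp [hq])
    refine ⟨?_, fun u => ?_⟩
    · simp only [h1, CC]
      push_cast
      linarith [mul_le_mul_of_nonneg_left a1 (Nat.cast_nonneg (α := ℝ) p.2)]
    · simp only [h1]
      linear_combination (p.2 : ℝ) * a2 u + b2 u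

theorem q0 {x y z v f : ℝ} (z0 : 0 ≤ z) (z1 : z ≤ 1024) (f0 : 0 ≤ f) (f1 : f ≤ 1024) (j : ℕ)
    (hj : j < 26) : Qd (fun u => hy j u x y z v f) (cv j 0 * 1048576) := by
  have k1 := mul_nonneg z0 (show 0 ≤ 2048 - z by linarith)
  have k2 := mul_nonneg f0 (show 0 ≤ 2048 - f by linarith)
  interval_cases j <;> refine ⟨?_, fun u => ?_⟩ <;>
    simp only [hy, cv, hQ, hB, p1, p2, c2, r8, List.getD_cons_succ, List.getD_cons_zero,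
      Nat.cast_zero, Nat.cast_one] <;> first | ring1 | linarith

theorem q1 {s : ℝ} (s0 : 0 ≤ s) (s1 : s ≤ 1024) (y z v f : ℝ) (j : ℕ) (hj : j < 26) :
    Qd (fun u => hy j s u y z v f) (cv j 1 * 1048576) := by
  have k1 := mul_nonneg s0 (sub_nonneg.2 s1)
  have k2 := sq_nonneg s
  interval_cases j <;> refine ⟨?_, fun u => ?_⟩ <;>
    simp only [hy, cv, hQ, hB, p1, p2, c2, r8, List.getD_cons_succ, List.getD_cons_zero,
      Nat.cast_ofNat, Nat.cast_zero] <;> first | ring1 | linarith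

theorem q2 {s : ℝ} (s0 : 0 ≤ s) (s1 : s ≤ 1024) (x z v f : ℝ) (j : ℕ) (hj : j < 26) :
    Qd (fun u => hy j s x u z v f) (cv j 2 * 1048576) := by
  have k1 := mul_nonneg s0 (sub_nonneg.2 s1)
  have k2 := sq_nonneg s
  interval_cases j <;> refine ⟨?_, fun u => ?_⟩ <;>
    simp only [hy, cv, hQ, hB, p1, p2, c2, r8, List.getD_cons_succ, List.getD_cons_zero,
      Nat.cast_ofNat, Nat.cast_zero] <;> first | ring1 | linarith

theorem q3 {s : ℝ} (s0 : 0 ≤ s) (s1 : s ≤ 1024) (x y v f : ℝ) (j : ℕ) (hj : j < 26) :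
    Qd (fun u => hy j s x y u v f) (cv j 3 * 1048576) := by
  have k1 := mul_nonneg s0 (sub_nonneg.2 s1)
  have k2 := sq_nonneg s
  interval_cases j <;> refine ⟨?_, fun u => ?_⟩ <;>
    simp only [hy, cv, hQ, hB, p1, p2, c2, r8, List.getD_cons_succ, List.getD_cons_zero,
      Nat.cast_ofNat, Nat.cast_zero] <;> first | ring1 | linarith

theorem q4 {s : ℝ} (s0 : 0 ≤ s) (s1 : s ≤ 1024) (x y z f : ℝ) (j : ℕ) (hj : j < 26) :
    Qd (fun u => hy j s x y z u f) (cv j 4 * 1048576) := by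
  have k1 := mul_nonneg s0 (sub_nonneg.2 s1)
  have k2 := sq_nonneg s
  interval_cases j <;> refine ⟨?_, fun u => ?_⟩ <;>
    simp only [hy, cv, hQ, hB, p1, p2, c2, r8, List.getD_cons_succ, List.getD_cons_zero,
      Nat.cast_ofNat, Nat.cast_zero] <;> first | ring1 | linarith

theorem q5 {s : ℝ} (s0 : 0 ≤ s) (s1 : s ≤ 1024) (x y z v : ℝ) (j : ℕ) (hj : j < 26) :
    Qd (fun u => hy j s x y z v u) (cv j 5 * 1048576) := by
  have k1 := mul_nonneg s0 (sub_nonneg.2 s1)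
  have k2 := sq_nonneg s
  interval_cases j <;> refine ⟨?_, fun u => ?_⟩ <;>
    simp only [hy, cv, hQ, hB, p1, p2, c2, r8, List.getD_cons_succ, List.getD_cons_zero,
      Nat.cast_ofNat, Nat.cast_zero] <;> first | ring1 | linarith

/-- Certificates: multipliers at a leaf, or a bisection of one coordinate. -/
inductive Tr where
  | L : List (ℕ × ℕ) → Tr
  | S : ℕ → Tr → Tr → Tr

/-- The test at the vertices of a box. -/
def leaf (l : List (ℕ × ℕ)) (a0 b0 a1 b1 a2 b2 a3 b3 a4 b4 a5 b5 : ℤ) : Bool :=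
  [a0, b0].all fun s => [a1, b1].all fun x => [a2, b2].all fun y => [a3, b3].all fun z =>
    [a4, b4].all fun v => [a5, b5].all fun f => decide (CC 0 l * (b0 - a0) ^ 2 +
      CC 1 l * (b1 - a1) ^ 2 + CC 2 l * (b2 - a2) ^ 2 + CC 3 l * (b3 - a3) ^ 2 +
      CC 4 l * (b4 - a4) ^ 2 + CC 5 l * (b5 - a5) ^ 2 + 4 ≤ 4 * H l s x y z v f)

/-- The checker; `k` lists the inequalities that may be used. -/
def chk (k : List ℕ) : Tr → ℤ → ℤ → ℤ → ℤ → ℤ → ℤ → ℤ → ℤ → ℤ → ℤ → ℤ → ℤ → Bool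
  | .L l, a0, b0, a1, b1, a2, b2, a3, b3, a4, b4, a5, b5 =>
    (l.all fun p => decide (p.1 ∈ k)) && leaf l a0 b0 a1 b1 a2 b2 a3 b3 a4 b4 a5 b5
  | .S i p q, a0, b0, a1, b1, a2, b2, a3, b3, a4, b4, a5, b5 =>
    match i with
    | 0 => chk k p a0 ((a0 + b0) / 2) a1 b1 a2 b2 a3 b3 a4 b4 a5 b5 &&
        chk k q ((a0 + b0) / 2) b0 a1 b1 a2 b2 a3 b3 a4 b4 a5 b5
    | 1 => chk k p a0 b0 a1 ((a1 + b1) / 2) a2 b2 a3 b3 a4 b4 a5 b5 &&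
        chk k q a0 b0 ((a1 + b1) / 2) b1 a2 b2 a3 b3 a4 b4 a5 b5
    | 2 => chk k p a0 b0 a1 b1 a2 ((a2 + b2) / 2) a3 b3 a4 b4 a5 b5 &&
        chk k q a0 b0 a1 b1 ((a2 + b2) / 2) b2 a3 b3 a4 b4 a5 b5
    | 3 => chk k p a0 b0 a1 b1 a2 b2 a3 ((a3 + b3) / 2) a4 b4 a5 b5 &&
        chk k q a0 b0 a1 b1 a2 b2 ((a3 + b3) / 2) b3 a4 b4 a5 b5
    | 4 => chk k p a0 b0 a1 b1 a2 b2 a3 b3 a4 ((a4 + b4) / 2) a5 b5 &&
        chk k q a0 b0 a1 b1 a2 b2 a3 b3 ((a4 + b4) / 2) b4 a5 b5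
    | _ => chk k p a0 b0 a1 b1 a2 b2 a3 b3 a4 b4 a5 ((a5 + b5) / 2) &&
        chk k q a0 b0 a1 b1 a2 b2 a3 b3 a4 b4 ((a5 + b5) / 2) b5

theorem hy_cast (j : ℕ) (s x y z v f : ℤ) :
    ((hy j s x y z v f : ℤ) : ℝ) = hy j (s : ℝ) x y z v f := by
  unfold hy
  split <;> (try simp only [hQ, hB, p1, p2, c2, r8]) <;> push_cast <;> rfl

theorem H_cast (s x y z v f : ℤ) : ∀ l, ((H l s x y z v f : ℤ) : ℝ) = H l (s : ℝ) x y z v f
  | [] => by simp [H]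
  | p :: l => by
    simp only [H, Int.cast_add, Int.cast_mul, Int.cast_natCast, hy_cast, H_cast s x y z v f l]

theorem leaf_snd {l : List (ℕ × ℕ)} (hl : ∀ p ∈ l, p.1 < 26)
    {a0 b0 a1 b1 a2 b2 a3 b3 a4 b4 a5 b5 : ℤ} {s x y z v f : ℝ}
    (h : leaf l a0 b0 a1 b1 a2 b2 a3 b3 a4 b4 a5 b5 = true) (ha : 0 ≤ a0)
    (hb : b0 ≤ 1024) (z0 : 0 ≤ z) (z1 : z ≤ 1024) (f0 : 0 ≤ f) (f1 : f ≤ 1024)
    (i0 : a0 ≤ s ∧ s ≤ b0) (i1 : a1 ≤ x ∧ x ≤ b1) (i2 : a2 ≤ y ∧ y ≤ b2)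
    (i3 : a3 ≤ z ∧ z ≤ b3) (i4 : a4 ≤ v ∧ v ≤ b4) (i5 : a5 ≤ f ∧ f ≤ b5) :
    1 ≤ H l s x y z v f := by
  simp only [leaf, List.all_eq_true, decide_eq_true_eq] at h
  have ha' : (0 : ℝ) ≤ a0 := by exact_mod_cast ha
  have hb' : (b0 : ℝ) ≤ 1024 := by exact_mod_cast hb
  have hs : ∀ S ∈ [a0, b0], (0 : ℝ) ≤ S ∧ (S : ℝ) ≤ 1024 := by
    simp only [List.forall_mem_cons, List.not_mem_nil, false_imp_iff, implies_true, and_true]
    exact ⟨⟨ha', by linarith [i0.1, i0.2]⟩, by linarith [i0.1, i0.2], hb'⟩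
  obtain ⟨e, he⟩ : ∃ e : ℝ, e = (CC 0 l * (b0 - a0) ^ 2 + CC 1 l * (b1 - a1) ^ 2 +
    CC 2 l * (b2 - a2) ^ 2 + CC 3 l * (b3 - a3) ^ 2 + CC 4 l * (b4 - a4) ^ 2 +
    CC 5 l * (b5 - a5) ^ 2 + 4) / 4 := ⟨_, rfl⟩
  have V : ∀ S ∈ [a0, b0], ∀ X ∈ [a1, b1], ∀ Y ∈ [a2, b2], ∀ Z ∈ [a3, b3], ∀ W ∈ [a4, b4],
      ∀ F ∈ [a5, b5], e ≤ H l (S : ℝ) X Y Z W F := by
    intro S hS X hX Y hY Z hZ W hW F hF
    have k := (Int.cast_le (R := ℝ)).2 (h S hS X hX Y hY Z hZ W hW F hF)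
    push_cast at k
    rw [H_cast] at k
    linarith
  have V5 := fun (S : ℤ) hS (X : ℤ) hX (Y : ℤ) hY (Z : ℤ) hZ (W : ℤ) hW =>
    (Qd.sum (G := fun l u => H l (S : ℝ) X Y Z W u) (fun _ => rfl) (fun _ _ _ => rfl)
      (q5 (hs S hS).1 (hs S hS).2 X Y Z W) l hl).le (Nat.cast_nonneg _) i5.1 i5.2
      (V S hS X hX Y hY Z hZ W hW a5 (by simp)) (V S hS X hX Y hY Z hZ W hW b5 (by simp))
  have V4 := fun (S : ℤ) hS (X : ℤ) hX (Y : ℤ) hY (Z : ℤ) hZ =>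
    (Qd.sum (G := fun l u => H l (S : ℝ) X Y Z u f) (fun _ => rfl) (fun _ _ _ => rfl)
      (q4 (hs S hS).1 (hs S hS).2 X Y Z f) l hl).le (Nat.cast_nonneg _) i4.1 i4.2
      (V5 S hS X hX Y hY Z hZ a4 (by simp)) (V5 S hS X hX Y hY Z hZ b4 (by simp))
  have V3 := fun (S : ℤ) hS (X : ℤ) hX (Y : ℤ) hY =>
    (Qd.sum (G := fun l u => H l (S : ℝ) X Y u v f) (fun _ => rfl) (fun _ _ _ => rfl)
      (q3 (hs S hS).1 (hs S hS).2 X Y v f) l hl).le (Nat.cast_nonneg _) i3.1 i3.2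
      (V4 S hS X hX Y hY a3 (by simp)) (V4 S hS X hX Y hY b3 (by simp))
  have V2 := fun (S : ℤ) hS (X : ℤ) hX =>
    (Qd.sum (G := fun l u => H l (S : ℝ) X u z v f) (fun _ => rfl) (fun _ _ _ => rfl)
      (q2 (hs S hS).1 (hs S hS).2 X z v f) l hl).le (Nat.cast_nonneg _) i2.1 i2.2
      (V3 S hS X hX a2 (by simp)) (V3 S hS X hX b2 (by simp))
  have V1 := fun (S : ℤ) hS =>
    (Qd.sum (G := fun l u => H l (S : ℝ) u y z v f) (fun _ => rfl) (fun _ _ _ => rfl)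
      (q1 (hs S hS).1 (hs S hS).2 y z v f) l hl).le (Nat.cast_nonneg _) i1.1 i1.2
      (V2 S hS a1 (by simp)) (V2 S hS b1 (by simp))
  have V0 := (Qd.sum (G := fun l u => H l u x y z v f) (fun _ => rfl) (fun _ _ _ => rfl)
      (q0 z0 z1 f0 f1) l hl).le (Nat.cast_nonneg _) i0.1 i0.2 (V1 a0 (by simp)) (V1 b0 (by simp))
  linarith

theorem H_nonpos {s x y z v f : ℝ} : ∀ l : List (ℕ × ℕ), (∀ p ∈ l, hy p.1 s x y z v f ≤ 0) →
    H l s x y z v f ≤ 0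
  | [], _ => le_rfl
  | p :: l, h => add_nonpos (mul_nonpos_of_nonneg_of_nonpos (Nat.cast_nonneg _) (h p (by simp)))
      (H_nonpos l fun q hq => h q (by simp [hq]))

theorem chk_snd (k : List ℕ) {s x y z v f : ℝ} (hk : ∀ j ∈ k, j < 26)
    (hH : ∀ j ∈ k, hy j s x y z v f ≤ 0)
    (z0 : 0 ≤ z) (z1 : z ≤ 1024) (f0 : 0 ≤ f) (f1 : f ≤ 1024) :
    ∀ (T : Tr) (a0 b0 a1 b1 a2 b2 a3 b3 a4 b4 a5 b5 : ℤ),
      chk k T a0 b0 a1 b1 a2 b2 a3 b3 a4 b4 a5 b5 = true →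
      0 ≤ a0 → a0 ≤ b0 → b0 ≤ 1024 → (a0 ≤ s ∧ s ≤ b0) → (a1 ≤ x ∧ x ≤ b1) → (a2 ≤ y ∧ y ≤ b2) →
      (a3 ≤ z ∧ z ≤ b3) → (a4 ≤ v ∧ v ≤ b4) → (a5 ≤ f ∧ f ≤ b5) → False := by
  intro T
  induction T with
  | L l =>
    intro a0 b0 a1 b1 a2 b2 a3 b3 a4 b4 a5 b5 h ha _ hb i0 i1 i2 i3 i4 i5
    simp only [chk, Bool.and_eq_true, List.all_eq_true, decide_eq_true_eq] at h
    linarith [leaf_snd (fun p hp => hk _ (h.1 p hp)) h.2 ha hb z0 z1 f0 f1 i0 i1 i2 i3 i4 i5,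
      H_nonpos l fun p hp => hH _ (h.1 p hp)]
  | S i p q ihp ihq =>
    intro a0 b0 a1 b1 a2 b2 a3 b3 a4 b4 a5 b5 h ha hab hb i0 i1 i2 i3 i4 i5
    rcases i with _ | _ | _ | _ | _ | i <;> simp only [chk, Bool.and_eq_true] at h
    · rcases le_total s ((a0 + b0) / 2 : ℤ) with c | c
      · exact ihp _ _ _ _ _ _ _ _ _ _ _ _ h.1 ha (by omega) (by omega) ⟨i0.1, c⟩ i1 i2 i3 i4 i5
      · exact ihq _ _ _ _ _ _ _ _ _ _ _ _ h.2 (by omega) (by omega) hb ⟨c, i0.2⟩ i1 i2 i3 i4 i5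
    · rcases le_total x ((a1 + b1) / 2 : ℤ) with c | c
      · exact ihp _ _ _ _ _ _ _ _ _ _ _ _ h.1 ha hab hb i0 ⟨i1.1, c⟩ i2 i3 i4 i5
      · exact ihq _ _ _ _ _ _ _ _ _ _ _ _ h.2 ha hab hb i0 ⟨c, i1.2⟩ i2 i3 i4 i5
    · rcases le_total y ((a2 + b2) / 2 : ℤ) with c | c
      · exact ihp _ _ _ _ _ _ _ _ _ _ _ _ h.1 ha hab hb i0 i1 ⟨i2.1, c⟩ i3 i4 i5
      · exact ihq _ _ _ _ _ _ _ _ _ _ _ _ h.2 ha hab hb i0 i1 ⟨c, i2.2⟩ i3 i4 i5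
    · rcases le_total z ((a3 + b3) / 2 : ℤ) with c | c
      · exact ihp _ _ _ _ _ _ _ _ _ _ _ _ h.1 ha hab hb i0 i1 i2 ⟨i3.1, c⟩ i4 i5
      · exact ihq _ _ _ _ _ _ _ _ _ _ _ _ h.2 ha hab hb i0 i1 i2 ⟨c, i3.2⟩ i4 i5
    · rcases le_total v ((a4 + b4) / 2 : ℤ) with c | c
      · exact ihp _ _ _ _ _ _ _ _ _ _ _ _ h.1 ha hab hb i0 i1 i2 i3 ⟨i4.1, c⟩ i5
      · exact ihq _ _ _ _ _ _ _ _ _ _ _ _ h.2 ha hab hb i0 i1 i2 i3 ⟨c, i4.2⟩ i5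
    · rcases le_total f ((a5 + b5) / 2 : ℤ) with c | c
      · exact ihp _ _ _ _ _ _ _ _ _ _ _ _ h.1 ha hab hb i0 i1 i2 i3 i4 ⟨i5.1, c⟩
      · exact ihq _ _ _ _ _ _ _ _ _ _ _ _ h.2 ha hab hb i0 i1 i2 i3 i4 ⟨c, i5.2⟩

end Pool.Agent.MP_34f9b1_co.Cor
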