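import Pool.Agent.MP_34f9b1_co.Cor.Chk

namespace Pool.Agent.MP_34f9b1_co.Cor

/-- Certificate for system 1. -/
def T1 : Tr :=
  (.S 2 (.S 3 (.S 2 (.L [(0, 1), (8, 2), (12, 1)]) (.S 4 (.L [(6, 1), (7, 19), (8, 7), (12, 5)])
  (.L [(7, 3), (8, 1), (12, 1)]))) (.S 1 (.L [(0, 2), (8, 1), (12, 1)]) (.S 2 (.L [(0, 4)]) (.L
  [(0, 7), (6, 18), (7, 18), (8, 13), (12, 7)])))) (.S 4 (.S 0 (.S 1 (.L [(0, 3080), (4, 2442),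
  (6, 2333), (12, 8529)]) (.S 3 (.S 3 (.L [(8, 2), (11, 2)]) (.L [(4, 2), (6, 5), (7, 14), (8, 4),
  (12, 7)])) (.S 3 (.L [(6, 1), (7, 2), (12, 1)]) (.L [(0, 1), (4, 1), (6, 1)])))) (.S 4 (.S 1 (.S
  3 (.L [(1, 1), (8, 2), (12, 2)]) (.L [(4, 2), (6, 10), (8, 7), (11, 9), (12, 5)])) (.S 3 (.S 3
  (.L [(8, 2), (11, 2)]) (.L [(6, 2), (8, 1), (11, 2)])) (.S 3 (.L [(6, 2), (8, 1), (11, 2)]) (.L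
  [(4, 1), (6, 3)])))) (.S 1 (.S 3 (.L [(8, 2), (12, 2)]) (.L [(4, 1), (6, 2), (7, 1), (8, 2),
  (12, 2)])) (.S 3 (.S 3 (.L [(8, 2), (11, 2)]) (.L [(7, 2), (8, 1), (11, 1)])) (.S 3 (.L [(4, 1),
  (6, 5), (7, 3), (8, 3), (11, 2), (12, 2)]) (.L [(0, 1), (4, 1), (6, 2)])))))) (.S 0 (.S 2 (.L
  [(0, 127), (4, 231), (7, 137), (8, 205), (12, 324)]) (.L [(0, 2), (4, 5), (12, 9)])) (.L [(0,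
  4), (4, 10), (8, 15), (12, 4)]))))

theorem chk1 : chk [0, 1, 2, 4, 5, 6, 7, 8, 11, 12] T1
    0 1024 320 640 0 512 0 512 0 512 0 0 = true := by
  decide +kernel

/-- Certificate for system 2. -/
def T2 : Tr :=
  (.S 0 (.S 2 (.S 2 (.L [(0, 2), (8, 2)]) (.S 1 (.L [(0, 2), (8, 2)]) (.S 5 (.S 3 (.S 3 (.L [(8,
  2), (11, 2)]) (.S 4 (.S 4 (.L [(3, 1), (6, 3), (15, 1)]) (.L [(6, 7), (8, 6), (14, 13), (15,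
  6)])) (.L [(7, 8), (8, 33), (14, 62), (15, 25)]))) (.S 3 (.S 5 (.L [(0, 1), (6, 1), (7, 1), (15,
  1)]) (.S 4 (.S 4 (.L [(6, 3)]) (.L [(0, 6), (6, 5), (8, 5), (14, 11), (15, 5)])) (.L [(0, 30),
  (7, 6), (8, 25), (14, 47), (15, 19)]))) (.L [(0, 4)]))) (.L [(0, 7), (2, 3), (3, 5), (6, 1), (8,
  6), (14, 10)])))) (.S 5 (.S 5 (.S 4 (.S 1 (.L [(0, 3), (4, 3), (6, 3), (15, 7)]) (.L [(0, 11),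
  (4, 8), (6, 9), (7, 7), (14, 3), (15, 25)])) (.L [(0, 1), (4, 1), (15, 2)])) (.S 2 (.S 3 (.S 3
  (.L [(2, 1), (3, 1), (15, 1)]) (.S 1 (.L [(15, 4)]) (.S 4 (.S 4 (.L [(3, 1), (6, 1), (14, 1),
  (15, 1)]) (.L [(6, 3), (8, 3), (14, 7), (15, 3)])) (.L [(7, 8), (8, 33), (14, 62), (15, 25)]))))
  (.S 3 (.S 1 (.S 4 (.S 4 (.L [(3, 1), (6, 2), (15, 1)]) (.S 0 (.L [(0, 3), (3, 1), (8, 1), (14,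
  7), (15, 4)]) (.L [(0, 2), (6, 7), (8, 3), (14, 14), (15, 5)]))) (.S 4 (.L [(0, 3), (8, 2), (14,
  8), (15, 3)]) (.L [(0, 3), (2, 1), (4, 1), (8, 2), (14, 6), (15, 3)]))) (.S 4 (.S 4 (.L [(3, 1),
  (6, 1), (11, 1), (14, 1), (15, 1)]) (.S 0 (.L [(0, 3), (3, 1), (8, 1), (14, 7), (15, 4)]) (.L
  [(0, 2), (6, 7), (8, 3), (14, 14), (15, 5)]))) (.S 4 (.L [(0, 6), (7, 1), (8, 3), (14, 16), (15,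
  6)]) (.L [(0, 1), (2, 2), (4, 1)])))) (.S 1 (.S 4 (.L [(0, 8), (6, 3), (8, 1), (14, 16), (15,
  5)]) (.L [(0, 9), (8, 1), (14, 17), (15, 5)])) (.L [(0, 1), (6, 1), (7, 2)])))) (.S 3 (.L [(3,
  12), (4, 9), (14, 18), (15, 25)]) (.S 1 (.S 4 (.S 4 (.L [(3, 1), (6, 2), (15, 1)]) (.L [(6, 5),
  (11, 4), (14, 16), (15, 7)])) (.S 4 (.L [(14, 3), (15, 1)]) (.L [(14, 2), (15, 1)]))) (.S 4 (.L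
  [(3, 1), (7, 1), (14, 10), (15, 3)]) (.L [(8, 1), (14, 6), (15, 1)])))))) (.S 3 (.S 3 (.L [(2,
  2), (3, 2)]) (.L [(2, 2), (3, 16), (8, 45), (14, 65)])) (.S 5 (.S 1 (.S 3 (.S 2 (.S 4 (.S 4 (.L
  [(3, 4)]) (.L [(0, 1), (3, 1), (8, 1), (14, 4), (15, 1)])) (.S 4 (.L [(0, 5), (3, 3), (8, 5),
  (14, 16), (15, 3)]) (.L [(0, 1), (2, 1), (14, 2)]))) (.L [(1, 2), (3, 5), (8, 5), (14, 20)]))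
  (.L [(0, 308), (1, 94), (3, 101), (8, 60), (14, 461)])) (.S 3 (.S 2 (.L [(0, 3), (3, 4), (8, 7),
  (14, 18)]) (.L [(3, 1), (8, 1), (14, 5)])) (.L [(0, 2), (3, 1), (4, 1)]))) (.L [(0, 5), (2, 3),
  (3, 6), (4, 1), (8, 5), (14, 13)]))))) (.S 2 (.S 2 (.L [(0, 2), (8, 2)]) (.L [(0, 9), (3, 6),
  (7, 28), (8, 14), (15, 6)])) (.S 4 (.S 4 (.L [(3, 3), (4, 2), (6, 7), (8, 1), (15, 3)]) (.S 3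
  (.L [(3, 3), (4, 1), (7, 17), (8, 7), (15, 3)]) (.S 3 (.L [(3, 6), (4, 9), (6, 9), (7, 16), (8,
  19), (15, 6)]) (.L [(3, 2), (4, 7), (6, 9), (8, 12), (15, 2)])))) (.S 4 (.L [(0, 3), (1, 1), (4,
  10), (8, 18)]) (.L [(4, 1), (8, 2)])))))

theorem chk2 : chk [0, 1, 2, 3, 4, 5, 6, 7, 8, 11, 14, 15] T2
    0 1024 320 640 0 512 0 512 0 512 0 512 = true := by
  decide +kernel

/-- Certificate for system 3. -/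
def T3 : Tr :=
  (.S 3 (.S 3 (.L [(8, 1), (11, 2)]) (.S 4 (.S 5 (.S 0 (.S 1 (.S 5 (.S 2 (.L [(8, 4)]) (.S 2 (.L
  [(6, 17), (8, 39), (16, 72)]) (.L [(8, 1), (11, 3)]))) (.S 4 (.S 2 (.L [(8, 4)]) (.S 1 (.L [(8,
  2), (16, 2)]) (.L [(6, 4), (8, 1), (16, 3)]))) (.S 2 (.L [(8, 4)]) (.S 2 (.S 1 (.L [(8, 1), (16,
  2)]) (.L [(6, 1), (8, 2), (16, 4)])) (.L [(8, 1), (16, 3)]))))) (.S 5 (.S 2 (.S 2 (.L [(0, 2),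
  (8, 2)]) (.S 4 (.L [(6, 3), (16, 1)]) (.L [(6, 1), (8, 1), (16, 2)]))) (.S 2 (.S 3 (.L [(8, 1),
  (11, 1), (16, 1)]) (.L [(6, 5), (8, 9), (16, 18)])) (.L [(8, 1), (11, 3)]))) (.S 4 (.S 2 (.L
  [(6, 3), (8, 1), (16, 1)]) (.S 1 (.L [(6, 4), (8, 1), (16, 3)]) (.L [(6, 10), (8, 1), (11, 2),
  (16, 3)]))) (.S 2 (.S 2 (.L [(6, 3), (8, 1)]) (.S 3 (.L [(6, 1), (8, 1), (16, 2)]) (.L [(3, 9),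
  (6, 147), (8, 282), (16, 586)]))) (.S 2 (.S 3 (.L [(8, 1), (11, 1), (16, 1)]) (.L [(3, 9), (6,
  147), (8, 282), (16, 586)])) (.L [(8, 1), (11, 1), (16, 2)])))))) (.S 2 (.L [(6, 1), (7, 5), (8,
  2)]) (.S 1 (.L [(8, 2), (11, 2)]) (.L [(6, 1), (7, 5), (8, 5), (11, 6)])))) (.S 2 (.S 0 (.S 5
  (.S 2 (.L [(0, 2), (8, 2)]) (.S 1 (.L [(8, 4)]) (.S 4 (.L [(3, 4)]) (.L [(3, 5), (8, 20), (16,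
  39)])))) (.L [(3, 4)])) (.L [(7, 5), (8, 2)])) (.S 2 (.S 1 (.S 1 (.L [(8, 25), (16, 39)]) (.S 0
  (.S 5 (.L [(8, 3), (16, 5)]) (.L [(3, 4)])) (.L [(8, 4)]))) (.S 2 (.S 1 (.S 0 (.S 0 (.S 4 (.L
  [(3, 4)]) (.L [(3, 3), (7, 2), (8, 9), (16, 19)])) (.L [(3, 1), (7, 13), (8, 19), (11, 32)]))
  (.L [(8, 4)])) (.L [(2, 4), (3, 5), (7, 23)])) (.S 5 (.S 0 (.L [(8, 291), (16, 733)]) (.L [(3,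
  1), (7, 5), (8, 3)])) (.L [(3, 4)])))) (.S 0 (.L [(3, 1), (4, 1), (8, 7), (11, 23)]) (.L [(3,
  1), (4, 1), (8, 2)]))))) (.S 2 (.S 0 (.S 1 (.L [(8, 4)]) (.S 4 (.S 2 (.L [(0, 1), (6, 2), (8,
  1)]) (.S 5 (.S 5 (.L [(7, 1), (8, 5), (16, 10)]) (.L [(8, 5), (16, 11)])) (.S 5 (.L [(8, 5),
  (16, 11)]) (.L [(2, 2), (3, 2)])))) (.L [(2, 4)]))) (.L [(7, 11), (8, 5)])) (.S 0 (.S 4 (.S 1
  (.L [(3, 1), (8, 54), (16, 72)]) (.S 2 (.S 5 (.S 5 (.L [(8, 1), (16, 3)]) (.L [(8, 5), (16,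
  11)])) (.S 5 (.L [(8, 5), (16, 11)]) (.L [(2, 2), (3, 2)]))) (.L [(8, 1), (11, 3)]))) (.L [(2,
  4)])) (.L [(4, 4), (7, 3), (8, 9)]))))) (.S 2 (.S 1 (.L [(0, 2), (8, 2)]) (.S 3 (.S 0 (.S 5 (.S
  5 (.S 4 (.S 2 (.L [(0, 4)]) (.S 4 (.L [(6, 4)]) (.L [(0, 1), (6, 1), (8, 1), (16, 2)]))) (.S 2
  (.L [(0, 4)]) (.L [(0, 9), (7, 1), (8, 7), (16, 15)]))) (.S 4 (.S 0 (.S 4 (.L [(6, 4)]) (.S 2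
  (.L [(0, 4)]) (.L [(0, 27), (3, 1), (6, 15), (8, 27), (16, 59)]))) (.S 2 (.L [(0, 4)]) (.L [(0,
  1), (6, 1), (7, 9), (8, 5)]))) (.S 5 (.S 2 (.L [(0, 4)]) (.S 4 (.L [(0, 9), (8, 8), (16, 16)])
  (.L [(0, 2), (2, 2)]))) (.S 3 (.S 2 (.L [(0, 4)]) (.S 4 (.L [(0, 3), (8, 2), (16, 4)]) (.L [(0,
  2), (2, 2)]))) (.L [(0, 4)]))))) (.S 2 (.L [(0, 4)]) (.S 5 (.S 4 (.S 4 (.L [(3, 4)]) (.L [(0,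
  9), (3, 2), (8, 7), (16, 14)])) (.S 4 (.L [(0, 5), (8, 4), (16, 8)]) (.L [(0, 2), (2, 2)]))) (.L
  [(0, 1), (2, 1), (3, 1)])))) (.L [(0, 1), (6, 3), (7, 3), (8, 2)])) (.L [(0, 4)]))) (.S 3 (.S 0
  (.S 1 (.S 2 (.S 5 (.S 5 (.S 4 (.S 4 (.L [(6, 6), (8, 2), (16, 7)]) (.S 1 (.L [(0, 3), (6, 7),
  (8, 5), (16, 17)]) (.S 0 (.L [(0, 1), (6, 10), (8, 4), (16, 16)]) (.L [(0, 1), (6, 10), (8, 4),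
  (16, 16)])))) (.S 4 (.S 1 (.L [(0, 1), (8, 2), (16, 5)]) (.L [(0, 5), (8, 6), (16, 21)])) (.L
  [(0, 1), (2, 1), (8, 1), (16, 2)]))) (.S 4 (.S 4 (.L [(6, 6), (8, 2), (16, 7)]) (.S 4 (.S 1 (.L
  [(3, 1), (6, 7), (8, 2), (16, 7)]) (.L [(3, 2), (6, 25), (8, 8), (16, 28)])) (.S 1 (.S 0 (.L
  [(0, 19), (3, 5), (6, 15), (8, 17), (16, 72)]) (.L [(0, 138), (3, 42), (6, 114), (8, 153), (16,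
  576)])) (.S 0 (.S 0 (.L [(0, 17), (3, 4), (6, 17), (8, 19), (16, 71)]) (.S 3 (.L [(0, 127), (3,
  25), (6, 181), (7, 1), (8, 128), (16, 561)]) (.L [(0, 128), (3, 25), (6, 181), (8, 127), (16,
  563)]))) (.S 5 (.L [(0, 3), (6, 20), (8, 9), (16, 33)]) (.L [(0, 87), (6, 212), (8, 162), (16,
  563)])))))) (.S 4 (.S 4 (.S 1 (.S 0 (.L [(0, 7), (8, 5), (16, 20)]) (.L [(0, 3), (8, 3), (16,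
  10)])) (.S 0 (.L [(0, 24), (8, 23), (16, 81)]) (.S 5 (.L [(0, 5), (7, 3), (8, 6), (16, 18)]) (.L
  [(0, 11), (7, 3), (8, 12), (16, 38)])))) (.L [(0, 5), (7, 5), (8, 6), (16, 16)])) (.L [(0, 2),
  (2, 1), (8, 1), (16, 4)])))) (.S 5 (.S 4 (.S 0 (.S 5 (.S 4 (.L [(3, 4)]) (.S 1 (.L [(0, 3), (3,
  1), (8, 2), (16, 9)]) (.L [(0, 179), (3, 75), (8, 170), (16, 600)]))) (.L [(3, 4)])) (.S 5 (.S 4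
  (.L [(3, 4)]) (.S 1 (.L [(0, 6), (3, 2), (8, 5), (16, 19)]) (.S 4 (.L [(3, 4)]) (.L [(0, 10),
  (3, 6), (7, 3), (8, 11), (16, 34)])))) (.L [(3, 4)]))) (.S 4 (.S 4 (.S 1 (.S 0 (.L [(0, 7), (8,
  5), (16, 20)]) (.L [(0, 3), (8, 3), (16, 10)])) (.S 0 (.L [(0, 24), (8, 23), (16, 81)]) (.S 5
  (.L [(0, 11), (7, 3), (8, 12), (16, 38)]) (.L [(0, 1), (3, 1), (8, 1), (16, 4)])))) (.L [(0, 5),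
  (7, 5), (8, 6), (16, 16)])) (.L [(0, 2), (2, 1), (8, 1), (16, 4)]))) (.L [(0, 2), (2, 1), (3,
  3), (4, 1), (8, 3), (16, 6)]))) (.S 5 (.S 5 (.S 4 (.S 4 (.L [(6, 6), (8, 2), (16, 7)]) (.L [(6,
  36), (7, 2), (8, 19), (16, 71)])) (.S 4 (.L [(7, 1), (8, 1), (16, 3)]) (.L [(8, 1), (16, 3)])))
  (.S 4 (.S 4 (.L [(6, 6), (8, 2), (16, 7)]) (.S 2 (.S 0 (.L [(1, 1), (6, 1), (16, 6)]) (.L [(6,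
  2), (8, 1), (16, 5)])) (.L [(11, 3)]))) (.S 4 (.S 3 (.L [(7, 3), (8, 3), (16, 10)]) (.L [(7, 4),
  (8, 6), (16, 23)])) (.L [(1, 1), (4, 1), (8, 2), (16, 5)])))) (.S 5 (.S 4 (.S 2 (.S 4 (.L [(3,
  4)]) (.L [(3, 3), (7, 3), (8, 5), (16, 21)])) (.L [(11, 3)])) (.S 4 (.S 3 (.L [(7, 3), (8, 3),
  (16, 10)]) (.L [(7, 4), (8, 6), (16, 23)])) (.L [(1, 1), (4, 1), (8, 2), (16, 5)]))) (.L [(1,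
  2), (2, 2), (3, 3), (4, 1)])))) (.S 2 (.S 5 (.S 5 (.S 4 (.S 4 (.L [(6, 6), (8, 2), (16, 7)]) (.S
  1 (.L [(0, 421), (6, 5625), (8, 1900), (16, 8438)]) (.L [(6, 1), (7, 2), (16, 1)]))) (.S 4 (.S 1
  (.L [(0, 5), (8, 6), (16, 21)]) (.L [(7, 3), (16, 1)])) (.L [(0, 1), (2, 2), (4, 1)]))) (.S 4
  (.S 4 (.L [(6, 6), (8, 2), (16, 7)]) (.S 1 (.S 4 (.L [(3, 2), (6, 25), (8, 8), (16, 28)]) (.S 0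
  (.S 1 (.S 5 (.L [(0, 1), (6, 11), (8, 4), (16, 16)]) (.L [(0, 1), (6, 4), (8, 2), (16, 8)])) (.L
  [(0, 1), (6, 4), (7, 1), (8, 2), (16, 8)])) (.S 5 (.L [(0, 1), (6, 11), (8, 4), (16, 16)]) (.L
  [(0, 4), (6, 17), (8, 9), (16, 34)])))) (.L [(6, 1), (7, 2), (16, 1)]))) (.S 4 (.S 1 (.S 0 (.S 4
  (.L [(0, 24), (8, 23), (16, 81)]) (.L [(0, 1), (2, 1), (7, 1), (16, 1)])) (.S 4 (.L [(7, 10),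
  (8, 3), (16, 3)]) (.L [(7, 3), (8, 1)]))) (.L [(7, 3), (16, 1)])) (.L [(0, 1), (2, 2), (4,
  1)])))) (.S 5 (.S 4 (.S 1 (.S 4 (.L [(3, 4)]) (.S 1 (.S 0 (.S 5 (.L [(0, 6), (3, 2), (8, 5),
  (16, 19)]) (.L [(3, 4)])) (.L [(3, 4), (7, 18), (8, 6), (16, 5)])) (.L [(0, 8), (3, 5), (7, 10),
  (8, 10), (16, 32)]))) (.L [(7, 3), (16, 1)])) (.S 4 (.S 1 (.S 0 (.S 4 (.L [(0, 24), (8, 23),
  (16, 81)]) (.L [(0, 1), (2, 1), (7, 1), (16, 1)])) (.S 4 (.L [(7, 10), (8, 3), (16, 3)]) (.L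
  [(7, 3), (8, 1)]))) (.L [(7, 3), (16, 1)])) (.L [(0, 1), (2, 2), (4, 1)]))) (.L [(0, 1), (2, 2),
  (3, 3), (4, 1)]))) (.S 4 (.S 4 (.L [(6, 3), (8, 1), (11, 4)]) (.S 5 (.S 1 (.L [(7, 1), (8, 1),
  (11, 6)]) (.L [(11, 4)])) (.L [(3, 1), (7, 3), (8, 1), (16, 3)]))) (.S 4 (.L [(7, 3), (8, 1),
  (11, 4)]) (.L [(2, 2), (4, 2)]))))) (.S 4 (.S 1 (.L [(6, 5), (7, 11), (8, 9), (11, 8)]) (.L [(6,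
  163), (7, 351), (8, 269), (11, 241)])) (.L [(0, 1), (4, 11), (8, 20)]))) (.S 0 (.S 1 (.S 2 (.S 5
  (.S 4 (.S 0 (.S 3 (.L [(0, 12), (1, 3), (11, 16)]) (.L [(0, 4)])) (.S 3 (.S 2 (.L [(0, 4)]) (.L
  [(0, 19), (1, 2), (8, 6), (11, 37)])) (.L [(0, 4)]))) (.S 3 (.S 2 (.L [(0, 4)]) (.S 0 (.L [(0,
  13), (1, 3), (11, 16)]) (.L [(0, 19), (1, 2), (8, 6), (11, 37)]))) (.L [(0, 4)]))) (.S 5 (.S 4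
  (.S 3 (.S 4 (.L [(3, 4)]) (.L [(0, 3), (3, 1), (7, 1), (8, 2), (16, 8)])) (.L [(0, 4)])) (.S 2
  (.L [(0, 4)]) (.S 4 (.L [(0, 33), (7, 11), (8, 17), (16, 67)]) (.L [(0, 2), (8, 1), (16, 4)]))))
  (.L [(0, 2), (1, 1), (3, 1), (4, 1)]))) (.S 5 (.S 4 (.S 3 (.S 0 (.L [(1, 3), (11, 13)]) (.S 2
  (.L [(0, 1), (1, 5), (8, 17), (11, 104)]) (.L [(1, 1), (11, 3)]))) (.L [(0, 2), (1, 1), (4, 1),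
  (6, 1)])) (.S 3 (.S 0 (.L [(1, 3), (11, 13)]) (.S 2 (.L [(0, 1), (1, 5), (8, 17), (11, 104)])
  (.L [(1, 2), (4, 2)]))) (.L [(0, 2), (1, 1), (4, 1)]))) (.S 5 (.S 4 (.S 3 (.S 4 (.L [(3, 4)])
  (.L [(0, 3), (3, 3), (7, 3), (8, 5), (16, 19)])) (.L [(0, 4), (1, 2), (3, 1), (4, 1)])) (.S 4
  (.S 3 (.L [(0, 3), (7, 3), (8, 5), (16, 21)]) (.L [(0, 2), (1, 1), (4, 1)])) (.L [(1, 2), (4,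
  2)]))) (.L [(1, 2), (3, 1), (4, 1)])))) (.L [(0, 24), (4, 29), (6, 75)])) (.S 4 (.L [(1, 2), (4,
  15), (6, 19), (8, 27)]) (.L [(0, 1), (4, 11), (8, 20)]))))))

theorem chk3 : chk [0, 1, 2, 3, 4, 5, 6, 7, 8, 11, 16, 21] T3
    0 1024 320 640 0 512 0 512 0 512 0 512 = true := by
  decide +kernel

/-- Certificate for system 4. -/
def T4 : Tr :=
  (.S 0 (.S 1 (.S 4 (.L [(0, 1), (1, 1), (3, 4), (13, 5), (15, 4)]) (.S 3 (.L [(2, 1), (3, 1),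
  (13, 1), (15, 1)]) (.L [(0, 50), (1, 196), (3, 24), (8, 195), (13, 388), (15, 73), (22, 97)])))
  (.L [(2, 1), (3, 1), (13, 5), (15, 1)])) (.L [(1, 3), (8, 4), (13, 8)]))

theorem chk4 : chk [0, 1, 2, 3, 4, 5, 6, 7, 8, 13, 15, 22] T4
    0 1024 320 640 0 512 0 512 0 512 0 512 = true := by
  decide +kernel

/-- Certificate for system 5. -/
def T5 : Tr :=
  (.S 0 (.S 1 (.S 3 (.S 5 (.S 3 (.L [(8, 1), (13, 1), (24, 1)]) (.S 4 (.L [(8, 1), (13, 1), (24,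
  2)]) (.L [(8, 1), (13, 1), (24, 2)]))) (.L [(1, 4), (3, 6), (8, 17), (13, 14), (24, 23)])) (.S 3
  (.S 2 (.L [(0, 1), (8, 2), (13, 2)]) (.S 2 (.S 5 (.S 5 (.L [(1, 1), (6, 3), (8, 3), (13, 4),
  (24, 5)]) (.S 4 (.S 4 (.L [(6, 2), (8, 1), (13, 1), (24, 3)]) (.L [(0, 2), (1, 1), (3, 1), (8,
  3), (13, 3), (24, 6)])) (.S 4 (.L [(0, 5), (1, 3), (8, 6), (13, 6), (24, 12)]) (.L [(0, 1), (8,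
  1), (24, 2)])))) (.L [(0, 106), (1, 133), (3, 68), (8, 196), (13, 248), (24, 272)])) (.S 4 (.L
  [(1, 7), (3, 1), (6, 1), (8, 5), (13, 12), (24, 7)]) (.L [(1, 7), (3, 1), (8, 5), (13, 11), (24,
  8)])))) (.L [(0, 1), (1, 1), (13, 1)]))) (.L [(1, 3), (8, 7), (13, 17), (24, 5)])) (.L [(1, 1),
  (8, 3), (13, 4)]))

theorem chk5 : chk [0, 1, 2, 3, 4, 5, 6, 7, 8, 13, 24] T5
    0 1024 320 640 0 512 0 512 0 512 0 512 = true := by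
  decide +kernel

/-- Certificate for system 6. -/
def T6 : Tr :=
  (.L [(1, 3), (8, 9), (23, 7), (25, 13)])

theorem chk6 : chk [0, 1, 2, 3, 4, 5, 6, 7, 8, 13, 23, 25] T6
    0 1024 320 640 0 512 0 512 0 512 0 512 = true := by
  decide +kernel

/-- Certificate for system 7. -/
def T7 : Tr :=
  (.S 5 (.S 4 (.S 2 (.S 2 (.L [(2, 1), (6, 3)]) (.S 3 (.S 4 (.L [(2, 3), (3, 3), (6, 22), (18,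
  4)]) (.S 3 (.L [(2, 5), (3, 2), (6, 8), (18, 2)]) (.S 0 (.S 5 (.L [(2, 1), (6, 5), (18, 2)]) (.S
  1 (.S 2 (.L [(0, 1), (2, 1), (6, 3)]) (.S 3 (.L [(2, 17), (3, 9), (6, 29), (17, 6), (18, 3)])
  (.S 4 (.L [(3, 4), (6, 9), (17, 4)]) (.S 1 (.L [(2, 6), (3, 6), (6, 11), (17, 9)]) (.L [(2, 6),
  (3, 6), (6, 11), (17, 9)]))))) (.S 1 (.S 2 (.L [(0, 1), (2, 1), (6, 3)]) (.L [(2, 21), (3, 20),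
  (6, 49), (17, 39)])) (.L [(2, 1), (3, 1), (6, 3), (17, 2)])))) (.S 1 (.L [(2, 1), (6, 7)]) (.L
  [(2, 1), (6, 7)]))))) (.S 0 (.S 4 (.L [(6, 3)]) (.S 3 (.S 1 (.S 4 (.L [(3, 3), (6, 9), (17, 4)])
  (.S 5 (.L [(6, 1), (17, 3)]) (.S 2 (.L [(0, 4)]) (.S 1 (.S 3 (.L [(6, 35), (17, 29)]) (.L [(0,
  4)])) (.S 3 (.L [(6, 35), (17, 29)]) (.L [(0, 4)])))))) (.S 3 (.S 1 (.S 5 (.L [(6, 2), (17, 2)])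
  (.L [(6, 9), (17, 7)])) (.L [(3, 1), (7, 4), (17, 2)])) (.L [(0, 4)]))) (.L [(0, 4)]))) (.S 3
  (.S 1 (.S 4 (.L [(6, 4)]) (.L [(6, 4)])) (.L [(6, 4)])) (.L [(0, 4)]))))) (.S 3 (.S 4 (.S 5 (.S
  0 (.S 2 (.L [(2, 2), (3, 1), (6, 7), (17, 2), (18, 4)]) (.L [(3, 1), (17, 2), (18, 2)])) (.S 2
  (.L [(2, 4), (3, 4), (6, 18), (7, 7), (18, 30)]) (.L [(18, 3)]))) (.S 1 (.S 0 (.L [(2, 70), (3,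
  211), (6, 485), (18, 259)]) (.S 2 (.L [(2, 1), (3, 4), (6, 6), (18, 6)]) (.L [(3, 1), (18,
  3)]))) (.S 0 (.L [(2, 70), (3, 211), (6, 485), (18, 259)]) (.S 2 (.L [(2, 1), (3, 4), (6, 6),
  (18, 6)]) (.L [(3, 1), (18, 3)]))))) (.S 3 (.S 0 (.S 2 (.L [(2, 16), (3, 11), (6, 20), (17, 3),
  (18, 15)]) (.L [(2, 2), (3, 2), (17, 1), (18, 3)])) (.S 1 (.S 5 (.L [(2, 2), (6, 20), (18, 11)])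
  (.L [(2, 7), (3, 5), (6, 13), (18, 7)])) (.S 5 (.L [(2, 2), (6, 20), (18, 11)]) (.L [(2, 7), (3,
  5), (6, 13), (18, 7)])))) (.S 5 (.S 0 (.S 2 (.L [(6, 2), (17, 1), (18, 1)]) (.L [(17, 2), (18,
  2)])) (.S 2 (.L [(6, 1), (18, 2)]) (.L [(18, 4)]))) (.S 2 (.S 0 (.S 1 (.S 2 (.S 3 (.S 0 (.L [(2,
  7), (3, 7), (6, 9), (17, 7), (18, 2)]) (.L [(2, 3), (3, 3), (6, 5), (17, 4), (18, 1)])) (.S 4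
  (.L [(3, 243), (6, 379), (17, 366), (18, 35)]) (.S 0 (.L [(2, 3), (3, 6), (17, 7), (18, 1)]) (.L
  [(2, 11), (3, 13), (6, 18), (17, 18), (18, 3)])))) (.S 0 (.L [(2, 1), (3, 3), (17, 4)]) (.L [(2,
  9), (3, 19), (17, 32), (18, 5)]))) (.S 1 (.S 3 (.L [(2, 13), (3, 11), (6, 23), (17, 18)]) (.L
  [(2, 194), (3, 174), (6, 363), (17, 292)])) (.L [(2, 1), (3, 1), (6, 3), (17, 2)]))) (.S 1 (.S 0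
  (.S 4 (.L [(2, 110), (3, 211), (6, 345), (17, 152), (18, 206)]) (.S 3 (.L [(2, 20), (3, 21), (6,
  47), (17, 36), (18, 3)]) (.L [(2, 150), (3, 168), (6, 380), (17, 273), (18, 53)]))) (.S 3 (.L
  [(2, 4), (3, 5), (6, 10), (7, 1), (17, 8), (18, 3)]) (.L [(2, 8), (3, 10), (6, 23), (17, 20),
  (18, 3)]))) (.S 1 (.S 0 (.L [(2, 2110), (3, 2358), (6, 6620), (17, 5296)]) (.L [(2, 3), (3, 5),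
  (6, 10), (7, 3), (17, 9), (18, 2)])) (.L [(2, 1), (3, 1), (6, 2), (7, 2), (17, 1), (18, 1)]))))
  (.S 0 (.L [(1, 1), (2, 2), (3, 5), (17, 8)]) (.L [(2, 3), (3, 6), (17, 6), (18, 17)])))))) (.S 3
  (.S 4 (.S 0 (.L [(3, 1), (6, 2), (18, 1)]) (.L [(3, 1), (6, 4), (18, 2)])) (.S 5 (.L [(6, 2),
  (17, 1), (18, 1)]) (.S 2 (.S 1 (.S 3 (.S 0 (.S 4 (.L [(3, 2), (6, 3), (17, 3)]) (.S 2 (.S 0 (.L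
  [(3, 4), (17, 10), (18, 1)]) (.L [(3, 1), (6, 7), (17, 7), (18, 1)])) (.L [(3, 1), (17, 3)])))
  (.S 0 (.S 4 (.L [(3, 1), (6, 2), (17, 1)]) (.L [(6, 552), (17, 396), (18, 76)])) (.L [(6, 8),
  (17, 7), (18, 1)]))) (.L [(6, 2), (17, 1)])) (.S 1 (.S 0 (.S 3 (.L [(6, 71), (17, 57)]) (.L [(6,
  2), (17, 2)])) (.S 3 (.L [(3, 1), (6, 3), (7, 10), (17, 2)]) (.L [(6, 2), (17, 2)]))) (.L [(3,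
  1), (7, 3), (17, 1)]))) (.S 0 (.L [(1, 1), (3, 2), (17, 5)]) (.L [(3, 1), (17, 2), (18, 5)])))))
  (.S 4 (.L [(3, 1), (6, 2), (18, 1)]) (.L [(6, 2), (17, 1)]))))) (.S 3 (.S 2 (.S 2 (.L [(0, 2),
  (2, 2)]) (.S 1 (.S 4 (.S 5 (.L [(6, 2), (18, 2)]) (.S 0 (.S 4 (.S 2 (.L [(0, 2), (2, 2)]) (.S 3
  (.L [(2, 4)]) (.S 0 (.S 3 (.L [(2, 4)]) (.L [(0, 3), (2, 6), (17, 7), (18, 1)])) (.S 3 (.L [(2,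
  4)]) (.L [(2, 1), (6, 1), (17, 1)]))))) (.L [(2, 4)])) (.S 3 (.L [(2, 4)]) (.L [(2, 1), (6,
  3)])))) (.L [(2, 4)])) (.S 1 (.S 4 (.S 2 (.L [(0, 2), (2, 2)]) (.S 4 (.S 0 (.S 3 (.L [(2, 4)])
  (.S 5 (.L [(2, 1), (6, 1), (17, 2)]) (.L [(2, 2), (6, 4), (17, 3)]))) (.L [(2, 1), (6, 3)])) (.L
  [(2, 4)]))) (.L [(2, 4)])) (.S 3 (.L [(2, 4)]) (.L [(2, 2), (7, 5), (9, 1)]))))) (.S 0 (.S 4 (.S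
  5 (.L [(2, 1), (17, 4), (18, 4)]) (.S 1 (.S 4 (.S 5 (.S 2 (.L [(2, 1), (17, 3)]) (.L [(2, 1),
  (17, 3)])) (.S 2 (.S 1 (.S 3 (.L [(2, 4)]) (.S 0 (.S 2 (.L [(2, 1), (17, 3)]) (.L [(2, 1), (17,
  3)])) (.S 2 (.S 3 (.L [(2, 4)]) (.L [(2, 1), (6, 2), (17, 2)])) (.L [(2, 1), (17, 3)])))) (.S 3
  (.L [(2, 4)]) (.S 2 (.S 0 (.L [(2, 1), (17, 3)]) (.S 3 (.L [(2, 4)]) (.L [(2, 1), (6, 2), (17,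
  2)]))) (.L [(2, 1), (17, 3)])))) (.L [(2, 1), (17, 3)]))) (.L [(2, 4)])) (.S 1 (.S 2 (.S 2 (.S 4
  (.S 3 (.L [(2, 4)]) (.L [(2, 1), (6, 1), (17, 1)])) (.L [(2, 4)])) (.S 3 (.L [(2, 4)]) (.L [(2,
  1), (17, 3)]))) (.L [(2, 1), (17, 3)])) (.S 2 (.L [(2, 1), (7, 5), (17, 3)]) (.L [(2, 1), (4,
  3)]))))) (.L [(2, 4)])) (.S 5 (.S 2 (.L [(2, 1), (6, 3), (17, 2), (18, 3)]) (.L [(17, 2), (18,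
  2)])) (.S 1 (.S 1 (.S 4 (.S 3 (.L [(2, 4)]) (.S 2 (.S 3 (.L [(2, 4)]) (.S 3 (.L [(2, 4)]) (.S 4
  (.S 0 (.L [(2, 2), (6, 4), (17, 3)]) (.L [(2, 1), (6, 2), (17, 2)])) (.L [(2, 4)])))) (.L [(2,
  1), (17, 2), (18, 5)]))) (.L [(2, 4)])) (.S 4 (.S 3 (.L [(2, 4)]) (.S 5 (.S 2 (.L [(2, 1), (6,
  2), (17, 1), (18, 1)]) (.L [(18, 4)])) (.S 2 (.S 3 (.L [(2, 4)]) (.S 0 (.S 4 (.L [(2, 3), (6,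
  7), (17, 6)]) (.L [(2, 4)])) (.L [(2, 1), (6, 2), (17, 2)]))) (.L [(2, 1), (17, 1), (18, 2)]))))
  (.L [(2, 4)]))) (.S 3 (.L [(2, 4)]) (.S 4 (.S 1 (.S 4 (.S 2 (.L [(2, 9), (6, 6), (7, 49)]) (.L
  [(2, 1), (7, 2), (17, 1)])) (.L [(2, 4)])) (.L [(2, 1), (7, 7)])) (.L [(2, 4)]))))))) (.S 2 (.S
  0 (.S 5 (.L [(0, 1), (17, 4), (18, 4)]) (.S 1 (.S 3 (.S 1 (.S 2 (.L [(0, 4)]) (.S 2 (.L [(0,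
  4)]) (.S 3 (.S 4 (.S 4 (.L [(6, 17), (17, 15)]) (.L [(0, 2), (2, 2)])) (.L [(2, 4)])) (.L [(0,
  4)])))) (.S 2 (.L [(0, 4)]) (.S 4 (.S 1 (.S 5 (.L [(6, 1), (17, 3)]) (.S 2 (.L [(0, 4)]) (.S 3
  (.S 4 (.L [(6, 2), (17, 2)]) (.L [(0, 2), (2, 2)])) (.L [(0, 4)])))) (.S 3 (.S 2 (.L [(0, 4)])
  (.L [(6, 35), (17, 29)])) (.L [(0, 4)]))) (.L [(0, 2), (2, 2)])))) (.L [(0, 4)])) (.S 3 (.S 1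
  (.S 3 (.S 2 (.L [(0, 4)]) (.S 4 (.L [(6, 9), (17, 7)]) (.L [(0, 1), (2, 1), (17, 2)]))) (.L [(0,
  4)])) (.S 2 (.L [(0, 4)]) (.L [(7, 3), (17, 1)]))) (.L [(0, 4)])))) (.S 1 (.S 2 (.L [(0, 4)])
  (.S 2 (.L [(0, 4)]) (.S 3 (.L [(2, 3), (6, 13)]) (.L [(0, 4)])))) (.S 2 (.L [(0, 4)]) (.S 3 (.L
  [(2, 1), (6, 7)]) (.L [(0, 4)]))))) (.S 4 (.S 3 (.S 5 (.L [(6, 2), (17, 1), (18, 1)]) (.S 2 (.S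
  1 (.S 4 (.S 0 (.S 3 (.S 5 (.L [(17, 4)]) (.S 2 (.S 0 (.L [(17, 3)]) (.L [(6, 2), (17, 2)])) (.L
  [(17, 3), (18, 1)]))) (.L [(0, 1), (17, 3)])) (.S 3 (.S 0 (.L [(6, 552), (17, 396), (18, 76)])
  (.L [(6, 2), (17, 2)])) (.L [(6, 2), (17, 2)]))) (.L [(2, 2), (6, 3), (17, 3)])) (.S 0 (.S 1 (.S
  3 (.L [(6, 71), (17, 57)]) (.L [(0, 1), (17, 3)])) (.L [(7, 3), (17, 1)])) (.S 3 (.S 4 (.L [(7,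
  4)]) (.L [(2, 1), (7, 1), (17, 1)])) (.L [(0, 1), (7, 3), (17, 1)])))) (.S 0 (.L [(1, 1), (17,
  7)]) (.L [(17, 1), (18, 3)])))) (.L [(0, 1), (1, 1), (6, 9), (17, 5)])) (.L [(0, 3), (1, 1), (2,
  6), (17, 6)]))))) (.S 2 (.S 2 (.L [(0, 1), (2, 1), (3, 1)]) (.S 5 (.S 1 (.S 3 (.S 3 (.L [(2, 2),
  (3, 2)]) (.S 4 (.S 1 (.S 4 (.L [(3, 4)]) (.S 0 (.S 0 (.S 2 (.L [(0, 1), (2, 1), (3, 1)]) (.S 2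
  (.L [(0, 1), (2, 1), (3, 1)]) (.S 4 (.L [(3, 4)]) (.L [(0, 1), (2, 2), (3, 3), (17, 2)])))) (.S
  2 (.L [(2, 1), (6, 3)]) (.S 2 (.L [(2, 1), (6, 3)]) (.S 1 (.S 3 (.L [(2, 2), (3, 2)]) (.L [(2,
  1), (3, 1), (6, 1), (17, 1)])) (.S 3 (.L [(2, 2), (3, 2)]) (.L [(2, 1), (3, 1), (6, 1), (17,
  1)])))))) (.L [(2, 1), (6, 7)]))) (.S 2 (.L [(0, 1), (2, 1), (3, 1)]) (.S 0 (.S 3 (.L [(2, 2),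
  (3, 2)]) (.S 5 (.S 4 (.L [(3, 4)]) (.S 4 (.L [(3, 4)]) (.L [(2, 3), (3, 4), (6, 5), (17, 4)])))
  (.L [(3, 4)]))) (.L [(2, 1), (6, 7)])))) (.S 0 (.S 2 (.L [(0, 2), (2, 2)]) (.S 4 (.S 4 (.S 0 (.S
  3 (.L [(2, 4)]) (.L [(0, 1), (2, 2), (3, 2), (17, 2)])) (.S 3 (.L [(2, 4)]) (.L [(2, 1), (3, 1),
  (6, 1), (17, 1)]))) (.L [(2, 4)])) (.L [(2, 4)]))) (.S 4 (.L [(2, 1), (6, 3)]) (.L [(2, 4)])))))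
  (.S 3 (.S 4 (.S 0 (.S 2 (.L [(0, 4)]) (.S 1 (.S 3 (.S 4 (.L [(3, 4)]) (.S 4 (.L [(3, 4)]) (.L
  [(3, 18), (6, 25), (17, 21)]))) (.L [(0, 4)])) (.S 3 (.S 5 (.S 4 (.L [(3, 4)]) (.S 4 (.L [(3,
  4)]) (.L [(3, 5), (6, 6), (17, 5)]))) (.L [(3, 4)])) (.L [(0, 4)])))) (.S 4 (.L [(3, 4)]) (.L
  [(6, 4)]))) (.S 0 (.S 1 (.S 4 (.S 3 (.S 0 (.S 4 (.S 2 (.L [(0, 4)]) (.L [(0, 5), (2, 3), (3,
  10), (17, 14)])) (.L [(0, 2), (2, 2)])) (.S 3 (.S 1 (.S 2 (.L [(0, 4)]) (.L [(2, 139), (3, 232),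
  (6, 319), (17, 335)])) (.S 2 (.L [(0, 4)]) (.L [(2, 137), (3, 231), (6, 320), (17, 336)]))) (.L
  [(0, 4)]))) (.L [(0, 4)])) (.L [(0, 2), (2, 2)])) (.S 2 (.L [(0, 4)]) (.S 4 (.S 2 (.L [(0, 4)])
  (.S 0 (.S 3 (.L [(0, 6), (2, 2), (3, 10), (17, 15)]) (.L [(0, 4)])) (.S 3 (.S 4 (.L [(2, 5), (3,
  7), (6, 10), (17, 11)]) (.L [(0, 2), (2, 2)])) (.L [(0, 4)])))) (.L [(0, 2), (2, 2)])))) (.S 4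
  (.L [(2, 1), (6, 3)]) (.L [(0, 2), (2, 2)])))) (.L [(0, 4)]))) (.S 3 (.S 4 (.S 2 (.L [(0, 1),
  (2, 1), (3, 1)]) (.S 1 (.S 5 (.S 0 (.S 3 (.L [(2, 2), (3, 2)]) (.S 4 (.L [(3, 4)]) (.L [(2, 5),
  (3, 7), (6, 11), (17, 9)]))) (.S 3 (.L [(2, 2), (3, 2)]) (.L [(2, 1), (6, 7)]))) (.L [(3, 4)]))
  (.S 3 (.L [(2, 2), (3, 2)]) (.L [(2, 1), (3, 1), (7, 2)])))) (.S 2 (.L [(0, 2), (2, 2)]) (.S 0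
  (.S 5 (.S 4 (.S 3 (.L [(2, 4)]) (.S 1 (.L [(2, 5), (3, 7), (6, 11), (17, 9)]) (.L [(2, 1), (3,
  1), (7, 2), (17, 1)]))) (.L [(2, 4)])) (.L [(2, 2), (3, 2)])) (.S 3 (.L [(2, 4)]) (.L [(2, 1),
  (6, 7)]))))) (.S 3 (.S 4 (.S 1 (.S 0 (.S 5 (.S 3 (.S 4 (.L [(3, 4)]) (.L [(3, 4), (6, 7), (17,
  5)])) (.L [(0, 4)])) (.L [(3, 4)])) (.L [(6, 4)])) (.L [(7, 7), (9, 1)])) (.S 0 (.S 1 (.S 3 (.S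
  4 (.L [(2, 18), (3, 27), (6, 46), (17, 37)]) (.L [(0, 2), (2, 2)])) (.L [(0, 4)])) (.L [(3, 1),
  (7, 2), (17, 1)])) (.L [(2, 1), (6, 7)]))) (.L [(0, 4)])))) (.L [(0, 1), (2, 1), (3, 1)]))) (.S
  3 (.S 2 (.S 5 (.S 3 (.L [(2, 2), (3, 2)]) (.S 4 (.S 0 (.S 4 (.L [(3, 4)]) (.S 1 (.S 2 (.S 3 (.L
  [(2, 2), (3, 2)]) (.S 0 (.S 4 (.L [(3, 4)]) (.L [(2, 3), (3, 6), (17, 7), (18, 1)])) (.S 4 (.L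
  [(3, 4)]) (.L [(2, 20), (3, 31), (6, 35), (17, 35), (18, 6)])))) (.S 0 (.L [(2, 1), (3, 3), (17,
  4)]) (.L [(2, 2), (3, 5), (17, 7), (18, 1)]))) (.S 0 (.S 1 (.L [(2, 5), (3, 11), (17, 16)]) (.L
  [(2, 1), (3, 2), (7, 3), (17, 2)])) (.S 1 (.S 3 (.L [(2, 2), (3, 2)]) (.L [(2, 1), (3, 1), (6,
  1), (17, 1)])) (.L [(3, 1), (7, 3)]))))) (.S 4 (.L [(3, 4)]) (.S 1 (.S 3 (.L [(2, 2), (3, 2)])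
  (.S 0 (.S 4 (.L [(3, 4)]) (.L [(2, 146), (3, 193), (6, 369), (17, 265), (18, 51)])) (.L [(2, 2),
  (3, 3), (6, 6), (17, 5), (18, 1)]))) (.S 1 (.S 3 (.L [(2, 2), (3, 2)]) (.L [(2, 2), (3, 3), (6,
  1), (7, 9)])) (.L [(3, 1), (7, 3)]))))) (.S 4 (.S 0 (.S 1 (.S 1 (.S 3 (.L [(2, 4)]) (.S 5 (.S 3
  (.L [(2, 4)]) (.S 2 (.S 0 (.L [(2, 2), (3, 3), (17, 4)]) (.L [(2, 1), (3, 1), (6, 1), (17, 1)]))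
  (.L [(2, 1), (3, 1), (17, 2)]))) (.L [(2, 2), (3, 2)]))) (.S 0 (.S 1 (.S 3 (.L [(2, 4)]) (.S 2
  (.L [(2, 2), (3, 3), (17, 4)]) (.L [(2, 1), (3, 1), (17, 2)]))) (.S 2 (.L [(2, 3), (3, 5), (17,
  8)]) (.L [(2, 1), (3, 1), (17, 2)]))) (.S 3 (.L [(2, 4)]) (.S 2 (.S 4 (.L [(2, 1), (3, 1), (6,
  1), (17, 1)]) (.L [(2, 4)])) (.L [(2, 1), (3, 1), (17, 2)]))))) (.S 1 (.S 3 (.L [(2, 4)]) (.L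
  [(2, 3), (3, 3), (6, 5), (17, 4)])) (.L [(2, 1), (3, 1), (7, 2), (17, 1)]))) (.S 1 (.S 0 (.S 3
  (.L [(2, 4)]) (.S 4 (.L [(2, 20), (3, 24), (6, 45), (17, 33), (18, 6)]) (.L [(2, 4)]))) (.S 3
  (.L [(2, 4)]) (.L [(2, 2), (3, 3), (6, 6), (17, 5), (18, 1)]))) (.S 0 (.S 1 (.L [(2, 132), (3,
  144), (6, 415), (17, 332)]) (.L [(7, 4)])) (.L [(2, 1), (7, 6), (17, 1)])))) (.L [(2, 4)]))))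
  (.L [(2, 2), (3, 2)])) (.S 3 (.L [(2, 2), (3, 2)]) (.S 1 (.S 5 (.S 4 (.S 5 (.S 2 (.S 0 (.L [(2,
  1), (3, 3), (17, 4)]) (.S 4 (.L [(3, 4)]) (.L [(2, 1), (3, 2), (7, 1), (17, 2), (18, 1)]))) (.L
  [(1, 1), (2, 1), (3, 2), (7, 3), (17, 2)])) (.L [(3, 4)])) (.S 0 (.L [(2, 1), (3, 1), (17, 2)])
  (.S 4 (.L [(2, 1), (3, 2), (7, 1), (17, 2), (18, 1)]) (.L [(2, 4)])))) (.L [(2, 2), (3, 2)]))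
  (.S 5 (.S 4 (.S 4 (.L [(3, 4)]) (.L [(2, 1), (3, 2), (7, 3), (17, 1)])) (.S 4 (.L [(2, 1), (3,
  1), (7, 2), (17, 1)]) (.L [(2, 4)]))) (.L [(2, 2), (3, 2)]))))) (.S 4 (.S 4 (.L [(3, 4)]) (.S 0
  (.S 1 (.S 5 (.S 5 (.S 1 (.S 4 (.L [(3, 4)]) (.S 2 (.S 3 (.S 0 (.S 2 (.L [(3, 2), (17, 2)]) (.L
  [(3, 2), (17, 2)])) (.S 3 (.S 2 (.L [(3, 2), (6, 3), (17, 3)]) (.L [(3, 3), (17, 5)])) (.L [(0,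
  1), (3, 1), (17, 2)]))) (.L [(0, 1), (3, 1), (17, 2)])) (.L [(3, 1), (17, 3)]))) (.S 2 (.S 3 (.S
  2 (.S 3 (.S 4 (.L [(3, 4)]) (.S 0 (.L [(3, 2), (17, 2)]) (.L [(3, 2), (6, 3), (17, 3)]))) (.L
  [(0, 1), (3, 1), (17, 2)])) (.L [(3, 3), (17, 5)])) (.L [(0, 1), (3, 1), (17, 2)])) (.L [(3, 1),
  (17, 3)]))) (.L [(3, 4)])) (.L [(3, 4)])) (.S 1 (.S 5 (.S 5 (.S 2 (.S 2 (.S 4 (.L [(3, 4)]) (.S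
  3 (.L [(3, 1), (6, 1), (17, 1)]) (.L [(0, 4)]))) (.S 3 (.L [(3, 1), (17, 3)]) (.L [(0, 1), (3,
  1), (17, 2)]))) (.L [(3, 1), (17, 3)])) (.L [(3, 4)])) (.L [(3, 4)])) (.S 2 (.L [(3, 1), (7, 2),
  (17, 1)]) (.L [(3, 2), (4, 2)])))) (.S 1 (.S 5 (.S 5 (.S 1 (.S 2 (.S 3 (.S 4 (.L [(3, 4)]) (.S 3
  (.S 0 (.L [(3, 2), (6, 4), (17, 3)]) (.L [(3, 1), (6, 2), (17, 2)])) (.L [(3, 1), (6, 2), (17,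
  1)]))) (.L [(3, 1), (6, 2), (17, 2)])) (.S 3 (.L [(3, 2), (17, 1), (18, 2)]) (.L [(3, 1), (17,
  3)]))) (.S 2 (.S 3 (.S 0 (.S 2 (.S 3 (.S 4 (.L [(3, 4)]) (.L [(3, 1), (6, 2), (17, 2)])) (.L
  [(3, 1), (6, 2), (17, 2)])) (.S 3 (.L [(3, 1), (6, 1), (17, 2)]) (.L [(3, 1), (6, 2), (17,
  2)]))) (.S 3 (.L [(3, 1), (6, 2), (17, 2)]) (.L [(3, 1), (6, 2), (17, 2)]))) (.L [(3, 1), (6,
  2), (17, 2)])) (.S 3 (.L [(3, 1), (17, 1), (18, 1)]) (.L [(3, 1), (17, 3)])))) (.L [(3, 4)]))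
  (.L [(3, 4)])) (.S 1 (.S 5 (.S 5 (.S 2 (.S 3 (.S 3 (.L [(3, 1), (6, 4), (7, 9), (17, 2)]) (.L
  [(0, 1), (3, 1), (6, 1), (7, 4), (17, 2)])) (.L [(6, 1), (7, 2), (17, 1)])) (.L [(3, 1), (7, 2),
  (17, 1)])) (.L [(3, 4)])) (.L [(3, 4)])) (.S 2 (.L [(7, 4)]) (.L [(3, 2), (4, 2)])))))) (.S 4
  (.S 5 (.S 3 (.S 1 (.S 0 (.S 2 (.S 4 (.S 3 (.S 0 (.S 2 (.L [(2, 1), (3, 3), (17, 4)]) (.L [(3,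
  1), (17, 2)])) (.S 2 (.L [(2, 11), (3, 15), (6, 17), (17, 17), (18, 3)]) (.L [(2, 1), (3, 3),
  (17, 4), (18, 1)]))) (.L [(0, 1), (3, 1), (17, 2)])) (.L [(0, 3), (2, 5), (3, 3), (17, 5)])) (.L
  [(3, 1), (17, 2)])) (.S 2 (.S 3 (.S 4 (.S 0 (.L [(2, 20), (3, 24), (6, 45), (17, 33), (18, 6)])
  (.L [(2, 2), (3, 3), (6, 6), (17, 5), (18, 1)])) (.L [(2, 3), (3, 3), (6, 5), (17, 5)])) (.L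
  [(2, 17), (3, 23), (6, 49), (17, 38)])) (.L [(2, 9), (3, 18), (7, 7), (17, 19), (18, 11)]))) (.S
  2 (.S 0 (.S 1 (.S 3 (.L [(2, 18), (3, 27), (6, 46), (17, 37)]) (.L [(0, 1), (3, 1), (17, 2)]))
  (.L [(3, 1), (7, 2), (17, 1)])) (.S 3 (.S 4 (.L [(7, 4)]) (.L [(2, 1), (7, 3)])) (.L [(0, 1),
  (3, 1), (7, 5), (17, 1)]))) (.L [(3, 3), (7, 10), (17, 4)]))) (.L [(0, 33), (1, 17), (3, 14),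
  (4, 5), (6, 22), (17, 38)])) (.L [(0, 6), (1, 3), (2, 9), (3, 11), (4, 2)])) (.L [(0, 10), (1,
  5), (2, 14), (4, 3)]))))))

theorem chk7 : chk [0, 1, 2, 3, 4, 5, 6, 7, 9, 17, 18] T7
    0 1024 320 640 0 512 0 512 0 512 0 512 = true := by
  decide +kernel

end Pool.Agent.MP_34f9b1_co.Cor
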