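import Mathlib

namespace Pool.Agent.MP_34f9b1_co.Cor

/-- A placed piece: signed ratio (negative for a point reflection) and position. -/
structure Hm where
  t : ℝ
  x : ℝ
  y : ℝ

/-- The image of a point under a placement. -/
def Hm.ap (u : Hm) (p : ℝ × ℝ) : ℝ × ℝ := (u.x + u.t * p.1, u.y + u.t * p.2)

/-- A line separates the two placed pieces. -/
def Spr (K : Set (ℝ × ℝ)) (u v : Hm) : Prop :=
  ∃ a b c : ℝ, (a ≠ 0 ∨ b ≠ 0) ∧ (∀ p ∈ K, a * (u.ap p).1 + b * (u.ap p).2 ≤ c) ∧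
    ∀ p ∈ K, c ≤ a * (v.ap p).1 + b * (v.ap p).2

theorem Spr.symm {K : Set (ℝ × ℝ)} {u v : Hm} (h : Spr K u v) : Spr K v u := by
  obtain ⟨a, b, c, hab, h1, h2⟩ := h
  refine ⟨-a, -b, -c, by simpa using hab, fun p hp => ?_, fun p hp => ?_⟩
  · linarith [h2 p hp]
  · linarith [h1 p hp]

/-- Normal form: a convex subset of the unit square whose chord at height one half has length
`1 - s / 2` and which contains a pentagon determined by `s`. -/
structure NF (K : Set (ℝ × ℝ)) (s : ℝ) : Prop where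
  s0 : 0 ≤ s
  s1 : s ≤ 1
  cv : Convex ℝ K
  out : ∀ p ∈ K, 0 ≤ p.1 ∧ 0 ≤ p.2 ∧ p.2 ≤ 1 ∧ p.1 ≤ 1
  sup : ∃ σ : ℝ, 0 ≤ σ ∧ σ ≤ 2 - s ∧ ∀ p ∈ K, p.1 + σ * p.2 ≤ 1 - s / 2 + σ / 2
  inn : ∀ p : ℝ × ℝ, 0 ≤ p.1 → 0 ≤ p.2 → p.1 + s * p.2 ≤ 1 → s * p.1 + p.2 ≤ 1 →
    p.1 + p.2 ≤ (3 - s) / 2 → p ∈ K

/-- The sizes of the list are packed in the body between two heights. -/
def Pk (K : Set (ℝ × ℝ)) (l : List ℝ) (Y Z : ℝ) : Prop :=
  ∃ S : List Hm, S.map (fun u => |u.t|) = l ∧ S.Pairwise (Spr K) ∧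
    ∀ u ∈ S, ∀ p ∈ K, u.ap p ∈ K ∧ Y ≤ (u.ap p).2 ∧ (u.ap p).2 ≤ Z

theorem Pk.mono {K : Set (ℝ × ℝ)} {l : List ℝ} {Y Z Z' : ℝ} (h : Pk K l Y Z) (hZ : Z ≤ Z') :
    Pk K l Y Z' := by
  obtain ⟨S, e, hD, hI⟩ := h
  exact ⟨S, e, hD, fun u hu p hp => ⟨(hI u hu p hp).1, (hI u hu p hp).2.1,
    (hI u hu p hp).2.2.trans hZ⟩⟩

theorem Pk.stack {K : Set (ℝ × ℝ)} {l l' : List ℝ} {Y Z W : ℝ} (h : Pk K l Y Z)
    (h' : Pk K l' Z W) (h1 : Y ≤ Z) (h2 : Z ≤ W) : Pk K (l ++ l') Y W := by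
  obtain ⟨S, e, hD, hI⟩ := h
  obtain ⟨S', e', hD', hI'⟩ := h'
  refine ⟨S ++ S', by rw [List.map_append, e, e'], List.pairwise_append.2 ⟨hD, hD', ?_⟩, ?_⟩
  · intro u hu v hv
    refine ⟨0, 1, Z, Or.inr one_ne_zero, fun p hp => ?_, fun p hp => ?_⟩
    · linarith [(hI u hu p hp).2.2]
    · linarith [(hI' v hv p hp).2.1]
  · intro u hu p hp
    rcases List.mem_append.1 hu with hu | hu
    · exact ⟨(hI u hu p hp).1, (hI u hu p hp).2.1, (hI u hu p hp).2.2.trans h2⟩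
    · exact ⟨(hI' u hu p hp).1, h1.trans (hI' u hu p hp).2.1, (hI' u hu p hp).2.2⟩

/-- The alternating row that starts at abscissa `X` stays left of `L`. -/
def ok (s L : ℝ) : ℝ → List ℝ → Prop
  | _, [] => True
  | X, [a] => X + a ≤ L
  | X, a :: b :: t => X + a ≤ L ∧ X + (1 - s / 2) * (a + b) ≤ L ∧
      ok s L (X + (1 - s / 2) * (a + b)) t

theorem rect {K : Set (ℝ × ℝ)} {s : ℝ} (hK : NF K s) (L c : ℝ) : ∀ (l : List ℝ) (X g : ℝ),
    l.Pairwise (· ≥ ·) → (∀ a ∈ l, 0 ≤ a ∧ a ≤ g) → ok s L X l →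
    ∃ S : List Hm, S.map (fun u => |u.t|) = l ∧ S.Pairwise (Spr K) ∧
      ∀ u ∈ S, ∀ p ∈ K, X ≤ (u.ap p).1 ∧ (u.ap p).1 ≤ L ∧ c - g / 2 ≤ (u.ap p).2 ∧
        (u.ap p).2 ≤ c + g / 2
  | [], _, _, _, _, _ => ⟨[], rfl, List.Pairwise.nil, by simp⟩
  | [a], X, g, _, hg, h => by
    obtain ⟨ha, hag⟩ := hg a (by simp)
    refine ⟨[⟨a, X, c - a / 2⟩], by simp [abs_of_nonneg ha], List.pairwise_singleton _ _, ?_⟩
    intro u hu p hp
    rw [List.mem_singleton.1 hu]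
    obtain ⟨h1, h2, h3, h4⟩ := hK.out p hp
    have h5 : X + a ≤ L := h
    simp only [Hm.ap]
    refine ⟨?_, ?_, ?_, ?_⟩ <;> nlinarith
  | a :: b :: t, X, g, hs, hg, h => by
    obtain ⟨ha, hag⟩ := hg a (by simp)
    obtain ⟨hb, hbg⟩ := hg b (by simp)
    obtain ⟨k1, k2, k3⟩ := h
    obtain ⟨hs1, hs2⟩ := List.pairwise_cons.1 hs
    obtain ⟨hs3, hs4⟩ := List.pairwise_cons.1 hs2
    have hab : b ≤ a := hs1 b (by simp)
    obtain ⟨S, e, hD, hI⟩ := rect hK L c t _ b hs4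
      (fun q hq => ⟨(hg q (by simp [hq])).1, hs3 q hq⟩) k3
    have s0 := hK.s0
    have s1 := hK.s1
    have hsa := mul_nonneg (sub_nonneg.2 s1) ha
    have hsb := mul_nonneg (sub_nonneg.2 s1) hb
    refine ⟨⟨a, X, c - a / 2⟩ :: ⟨-b, X + (1 - s / 2) * (a + b), c + b / 2⟩ :: S,
      by simp [abs_of_nonneg ha, abs_of_nonneg hb, e], ?_, ?_⟩
    · refine List.pairwise_cons.2 ⟨fun v hv => ?_, List.pairwise_cons.2 ⟨fun v hv => ?_, hD⟩⟩
      · obtain ⟨σ, g0, g1, g2⟩ := hK.sup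
        refine ⟨1, σ, X + (1 - s / 2) * a + σ * c, Or.inl one_ne_zero, fun p hp => ?_,
          fun p hp => ?_⟩
        · have := mul_le_mul_of_nonneg_left (g2 p hp) ha
          simp only [Hm.ap]
          linarith
        · rcases List.mem_cons.1 hv with rfl | hv
          · have := mul_le_mul_of_nonneg_left (g2 p hp) hb
            simp only [Hm.ap]
            linarith
          · obtain ⟨h1, -, h3, -⟩ := hI v hv p hp
            linarith [mul_le_mul_of_nonneg_left h3 g0, mul_le_mul_of_nonneg_left g1 hb]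
      · refine ⟨1, 0, X + (1 - s / 2) * (a + b), Or.inl one_ne_zero, fun p hp => ?_,
          fun p hp => ?_⟩
        · obtain ⟨h1, h2, h3, h4⟩ := hK.out p hp
          simp only [Hm.ap]
          nlinarith
        · linarith [(hI v hv p hp).1]
    · intro u hu p hp
      obtain ⟨h1, h2, h3, h4⟩ := hK.out p hp
      rcases List.mem_cons.1 hu with rfl | hu
      · simp only [Hm.ap]
        refine ⟨?_, ?_, ?_, ?_⟩ <;> nlinarith
      rcases List.mem_cons.1 hu with rfl | hu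
      · simp only [Hm.ap]
        refine ⟨?_, ?_, ?_, ?_⟩ <;> nlinarith
      · obtain ⟨j1, j2, j3, j4⟩ := hI u hu p hp
        refine ⟨?_, j2, ?_, ?_⟩ <;> nlinarith

theorem row {K : Set (ℝ × ℝ)} {s : ℝ} (hK : NF K s) {h Y L : ℝ} {o : List ℝ} (h0 : 0 ≤ h)
    (h1 : h < 1) (hY : 0 ≤ Y) (hL : 0 ≤ L) (k1 : L + s * Y ≤ 1 - h) (k2 : s * L + Y ≤ 1 - h)
    (k3 : L + Y ≤ (1 - h) * ((3 - s) / 2)) (hs : o.Pairwise (· ≥ ·)) (hg : ∀ a ∈ o, 0 ≤ a ∧ a ≤ h) (hok : ok s L 0 o) :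
    Pk K (h :: o) Y (Y + h) := by
  obtain ⟨S, e, hD, hI⟩ := rect hK L (Y + h / 2) o 0 h hs hg hok
  have s0 := hK.s0
  have s1 := hK.s1
  have hp1 : 0 < 1 - h := by linarith
  refine ⟨⟨h, L, Y⟩ :: S, by simp [abs_of_nonneg h0, e], List.pairwise_cons.2 ⟨fun v hv => ?_, hD⟩,
    fun u hu p hp => ?_⟩
  · refine ⟨-1, 0, -L, Or.inl (by norm_num), fun p hp => ?_, fun p hp => ?_⟩
    · obtain ⟨j1, -⟩ := hK.out p hp
      simp only [Hm.ap]
      nlinarith
    · linarith [(hI v hv p hp).2.1]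
  · rcases List.mem_cons.1 hu with rfl | hu
    · obtain ⟨j1, j2, j3, j4⟩ := hK.out p hp
      have hz : (L / (1 - h), Y / (1 - h)) ∈ K := by
        refine hK.inn _ (div_nonneg hL hp1.le) (div_nonneg hY hp1.le) ?_ ?_ ?_
        · simp only
          rw [← mul_div_assoc, ← add_div, div_le_one hp1]
          exact k1
        · simp only
          rw [← mul_div_assoc, ← add_div, div_le_one hp1]
          exact k2
        · simp only
          rw [← add_div, div_le_iff₀ hp1]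
          linarith
      have := hK.cv hz hp hp1.le h0 (by ring)
      refine ⟨?_, ?_, ?_⟩
      · convert this using 1
        ext <;> simp only [Hm.ap, Prod.fst_add, Prod.snd_add, Prod.smul_fst, Prod.smul_snd,
          smul_eq_mul] <;> field_simp
      · simp only [Hm.ap]
        nlinarith
      · simp only [Hm.ap]
        nlinarith
    · obtain ⟨j1, j2, j3, j4⟩ := hI u hu p hp
      refine ⟨hK.inn _ j1 (by linarith) ?_ ?_ ?_, by linarith, by linarith⟩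
      · nlinarith [mul_le_mul_of_nonneg_left j4 s0]
      · nlinarith [mul_le_mul_of_nonneg_left j2 s0]
      · nlinarith

theorem split {s : ℝ} (s0 : 0 ≤ s) (L : ℝ) : ∀ (l : List ℝ) (X : ℝ), (∀ a ∈ l, 0 ≤ a) →
    ok s L X l ∨ ∃ o f r, l = o ++ f :: r ∧ ok s L X o ∧ L < X + (1 - s / 2) * o.sum + f
  | [], _, _ => Or.inl trivial
  | [a], X, _ => by
    by_cases h : X + a ≤ L
    · exact Or.inl h
    · exact Or.inr ⟨[], a, [], rfl, trivial, by simpa using h⟩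
  | a :: b :: t, X, hl => by
    by_cases h : X + a ≤ L
    · by_cases h' : X + (1 - s / 2) * (a + b) ≤ L
      · rcases split s0 L t (X + (1 - s / 2) * (a + b)) (fun q hq => hl q (by simp [hq])) with
          k | ⟨o, f, r, e, k1, k2⟩
        · exact Or.inl ⟨h, h', k⟩
        · refine Or.inr ⟨a :: b :: o, f, r, by simp [e], ⟨h, h', k1⟩, ?_⟩
          simp only [List.sum_cons]
          linarith
      · refine Or.inr ⟨[a], b, t, rfl, h, ?_⟩
        have := mul_nonneg s0 (hl b (by simp))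
        simp only [List.sum_cons, List.sum_nil]
        linarith
    · exact Or.inr ⟨[], a, b :: t, rfl, trivial, by simpa using h⟩

/-- The sum of the squares. -/
def sq2 (l : List ℝ) : ℝ := (l.map (· ^ 2)).sum

theorem sq2_nonneg (l : List ℝ) : 0 ≤ sq2 l :=
  List.sum_nonneg (by simp only [List.mem_map]; rintro _ ⟨q, -, rfl⟩; positivity)

theorem sq2_cons (a : ℝ) (l : List ℝ) : sq2 (a :: l) = a ^ 2 + sq2 l := by simp [sq2]

theorem sq2_split {f : ℝ} (hf : 0 ≤ f) (r : List ℝ) : ∀ o : List ℝ, (∀ a ∈ o, f ≤ a) →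
    f * o.sum + f ^ 2 + sq2 r ≤ sq2 (o ++ f :: r) ∧ 0 ≤ o.sum
  | [], _ => by simp [sq2]
  | a :: o, h => by
    obtain ⟨k1, k2⟩ := sq2_split hf r o fun q hq => h q (by simp [hq])
    have := h a (by simp)
    rw [List.cons_append, sq2_cons, List.sum_cons]
    exact ⟨by nlinarith, by linarith⟩

end Pool.Agent.MP_34f9b1_co.Cor
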