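import Pool.Agent.MP_34f9b1_co.Geom
import Pool.Agent.MP_34f9b1_co.Cor.Row

namespace Pool.Agent.MP_34f9b1_co.Cor

/-- The set is an affine image of a set in normal form. -/
def Good (F : Set E) : Prop :=
  ∃ (K : Set (ℝ × ℝ)) (s : ℝ) (L : E ≃ₗ[ℝ] ℝ × ℝ) (c : E), NF K s ∧ ∀ x, x ∈ F ↔ L (x - c) ∈ K

/-- A closed convex subset of the unit square that holds three of its vertices. -/
structure Crn (K : Set (ℝ × ℝ)) : Prop where
  cv : Convex ℝ K
  cl : IsClosed K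
  out : ∀ p ∈ K, 0 ≤ p.1 ∧ 0 ≤ p.2 ∧ p.2 ≤ 1 ∧ p.1 ≤ 1
  m0 : (0, 0) ∈ K
  m1 : (1, 0) ∈ K
  m2 : (0, 1) ∈ K

theorem Crn.swap {K : Set (ℝ × ℝ)} (h : Crn K) : Crn (Prod.swap ⁻¹' K) where
  cv := fun _ hp _ hq _ _ ha hb hab => h.cv hp hq ha hb hab
  cl := h.cl.preimage continuous_swap
  out := fun _ hp => ⟨(h.out _ hp).2.1, (h.out _ hp).1, (h.out _ hp).2.2.2, (h.out _ hp).2.2.1⟩
  m0 := h.m0
  m1 := h.m2
  m2 := h.m1

theorem Crn.seg {K : Set (ℝ × ℝ)} (h : Crn K) {a b c d θ X Y : ℝ} (hp : (a, b) ∈ K)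
    (hq : (c, d) ∈ K) (h0 : 0 ≤ θ) (h1 : θ ≤ 1) (hX : X = a + θ * (c - a))
    (hY : Y = b + θ * (d - b)) : (X, Y) ∈ K := by
  rw [hX, hY]
  exact h.cv.add_smul_sub_mem hp hq ⟨h0, h1⟩

theorem Crn.left {K : Set (ℝ × ℝ)} (h : Crn K) {X X' Y : ℝ} (hp : (X', Y) ∈ K) (h0 : 0 ≤ X)
    (h1 : X ≤ X') : (X, Y) ∈ K := by
  obtain ⟨-, y0, y1, -⟩ := h.out _ hp
  have k : (0, Y) ∈ K := h.seg h.m0 h.m2 y0 y1 (by ring) (by ring)
  rcases (h0.trans h1).eq_or_lt with e | e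
  · rwa [show X = 0 by linarith]
  · exact h.seg k hp (div_nonneg h0 e.le) ((div_le_one e).2 h1) (by field_simp; ring) (by ring)

theorem Crn.top {K : Set (ℝ × ℝ)} (h : Crn K) : ∃ μ, IsGreatest {X | (X, (1 / 2 : ℝ)) ∈ K} μ := by
  refine IsCompact.exists_isGreatest (isCompact_Icc.of_isClosed_subset (s := Set.Icc 0 1)
    (h.cl.preimage (f := fun X : ℝ => (X, (1 / 2 : ℝ))) (by fun_prop))
    fun X hX => ⟨(h.out _ hX).1, (h.out _ hX).2.2.2⟩) ⟨0, ?_⟩
  exact h.seg (θ := 1 / 2) h.m0 h.m2 (by norm_num) (by norm_num) (by ring) (by ring)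

theorem Crn.nf {K : Set (ℝ × ℝ)} (h : Crn K) {μ : ℝ} (h1 : IsGreatest {X | (X, (1 / 2 : ℝ)) ∈ K} μ)
    (h2 : ((1 / 2 : ℝ), μ) ∈ K) : NF K (2 - 2 * μ) := by
  have m1 : μ ≤ 1 := (h.out _ h1.1).2.2.2
  have m0 : 1 / 2 ≤ μ :=
    h1.2 (h.seg (θ := 1 / 2) h.m1 h.m2 (by norm_num) (by norm_num) (by ring) (by ring))
  refine ⟨by linarith, by linarith, h.cv, h.out, ?_, ?_⟩
  · let A : Set ℝ := {r | ∃ p ∈ K, p.2 < 1 / 2 ∧ r * (1 / 2 - p.2) = p.1 - μ}
    have key : ∀ r ∈ A, ∀ q ∈ K, 1 / 2 < q.2 → r * (q.2 - 1 / 2) ≤ μ - q.1 := by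
      rintro r ⟨⟨a, b⟩, hp, hb, hr⟩ ⟨c, d⟩ hq hd
      simp only at hb hr hd ⊢
      have hdb : 0 < d - b := by linarith
      obtain ⟨θ, hθ⟩ : ∃ θ, θ * (d - b) = 1 / 2 - b := ⟨_, div_mul_cancel₀ _ hdb.ne'⟩
      have t0 : 0 ≤ θ := le_of_mul_le_mul_right (by linarith) hdb
      have t1 : θ ≤ 1 := le_of_mul_le_mul_right (by linarith) hdb
      have k : a + θ * (c - a) ≤ μ := h1.2 (h.seg hp hq t0 t1 rfl (by linarith))
      have k1 := mul_le_mul_of_nonneg_right k hdb.le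
      have k2 : θ * (d - b) * (c - a) = (1 / 2 - b) * (c - a) := by rw [hθ]
      have k3 : r * (1 / 2 - b) * (d - 1 / 2) = (a - μ) * (d - 1 / 2) := by rw [hr]
      exact le_of_mul_le_mul_right (by linarith) (sub_pos.2 hb)
    have a0 : 2 - 2 * μ ∈ A := ⟨_, h.m1, by norm_num, by ring⟩
    have ub : ∀ r ∈ A, r ≤ 2 * μ := fun r hr => by linarith [key r hr _ h.m2 (by norm_num)]
    refine ⟨sSup A, by linarith [le_csSup ⟨_, ub⟩ a0], by linarith [csSup_le ⟨_, a0⟩ ub],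
      fun p hp => ?_⟩
    rcases lt_trichotomy p.2 (1 / 2) with c | c | c
    · have hd := sub_pos.2 c
      have := mul_le_mul_of_nonneg_right (le_csSup ⟨_, ub⟩
        (show (p.1 - μ) / (1 / 2 - p.2) ∈ A from ⟨p, hp, c, div_mul_cancel₀ _ hd.ne'⟩)) hd.le
      rw [div_mul_cancel₀ _ hd.ne'] at this
      linarith
    · have : p.1 ≤ μ := h1.2 (show (p.1, (1 / 2 : ℝ)) ∈ K by rw [← c]; exact hp)
      rw [c]
      linarith
    · have hd := sub_pos.2 c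
      have := (le_div_iff₀ hd).1 (csSup_le ⟨_, a0⟩ fun r hr => (le_div_iff₀ hd).2 (key r hr p hp c))
      linarith
  · rintro ⟨X, Y⟩ x0 y0 k1 k2 k3
    simp only at x0 y0 k1 k2 k3
    by_cases c1 : Y ≤ 1 / 2
    · exact h.left (h.seg (θ := 2 * Y) h.m1 h1.1 (by linarith) (by linarith) rfl (by ring)) x0
        (by linarith)
    by_cases c2 : X ≤ 1 / 2
    · exact h.swap.left (X := Y) (Y := X)
        (h.swap.seg (θ := 2 * X) h.swap.m1 h2 (by linarith) (by linarith) rfl (by ring)) y0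
        (by linarith)
    have hd : 0 < μ - 1 / 2 := by linarith
    obtain ⟨θ, hθ⟩ : ∃ θ, θ * (μ - 1 / 2) = Y - 1 / 2 := ⟨_, div_mul_cancel₀ _ hd.ne'⟩
    exact h.left (h.seg (θ := θ) h1.1 h2 (le_of_mul_le_mul_right (by linarith) hd)
      (le_of_mul_le_mul_right (by linarith) hd) rfl (by linarith)) x0 (by linarith)

theorem Crn.ex {K : Set (ℝ × ℝ)} (h : Crn K) : ∃ s, NF K s ∨ NF (Prod.swap ⁻¹' K) s := by
  obtain ⟨μ, h1⟩ := h.top
  obtain ⟨ν, h2⟩ := h.swap.top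
  rcases le_total μ ν with c | c
  · exact ⟨_, Or.inl (h.nf h1 (h.swap.left h2.1 (h.out _ h1.1).1 c))⟩
  · exact ⟨_, Or.inr (h.swap.nf h2 (h.left h1.1 (h.swap.out _ h2.1).1 c))⟩

/-- Twice the oriented area of a triangle. -/
def ar (P Q R : E) : ℝ := (Q 0 - P 0) * (R 1 - P 1) - (Q 1 - P 1) * (R 0 - P 0)

theorem flat {S : Set E} {a e : E} (he : e ≠ a) (h : ∀ p ∈ S, ar a e p = 0) :
    ¬(interior S).Nonempty := by
  have hn : 0 < (e 0 - a 0) ^ 2 + (e 1 - a 1) ^ 2 := by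
    by_contra hc
    refine he ?_
    ext i
    fin_cases i <;> simp only [Fin.zero_eta, Fin.mk_one, Fin.isValue] <;>
      nlinarith [sq_nonneg (e 0 - a 0), sq_nonneg (e 1 - a 1)]
  have := sep_interior (g := fun p => ar a e p) (c := 0)
    (e := ((e 0 - a 0) ^ 2 + (e 1 - a 1) ^ 2)⁻¹ • !₂[a 1 - e 1, e 0 - a 0]) (fun p ε => by
      simp only [ar, PiLp.add_apply, PiLp.smul_apply, smul_eq_mul, Matrix.cons_val_zero,
        Matrix.cons_val_one]
      field_simp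
      ring) (fun p hp => (h p hp).le) (fun p hp => (h p hp).ge)
  rw [disjoint_self] at this
  rw [this]
  simp

theorem good {F : Set E} (hF : IsCompact F) (hc : Convex ℝ F) (hi : (interior F).Nonempty)
    {A B C : E} (hA : A ∈ F) (hB : B ∈ F) (hC : C ∈ F)
    (hP : ∀ p ∈ F, ∃ X Y : ℝ, 0 ≤ X ∧ X ≤ 1 ∧ 0 ≤ Y ∧ Y ≤ 1 ∧ p = B + X • (A - B) + Y • (C - B)) :
    Good F := by
  have hδ : ar B A C ≠ 0 := by
    intro h0
    by_cases h1 : A = B
    · by_cases h2 : C = B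
      · refine flat (a := B) (e := B + EuclideanSpace.single 0 1) (by simp) (fun p hp => ?_) hi
        obtain ⟨X, Y, -, -, -, -, rfl⟩ := hP p hp
        simp [ar, h1, h2]
      · refine flat h2 (fun p hp => ?_) hi
        obtain ⟨X, Y, -, -, -, -, rfl⟩ := hP p hp
        simp only [ar, h1, PiLp.add_apply, PiLp.smul_apply, PiLp.sub_apply, smul_eq_mul]
        ring
    · refine flat h1 (fun p hp => ?_) hi
      obtain ⟨X, Y, -, -, -, -, rfl⟩ := hP p hp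
      simp only [ar, PiLp.add_apply, PiLp.smul_apply, PiLp.sub_apply, smul_eq_mul] at h0 ⊢
      linear_combination Y * h0
  let M : (ℝ × ℝ) →ₗ[ℝ] E :=
    (LinearMap.fst ℝ ℝ ℝ).smulRight (A - B) + (LinearMap.snd ℝ ℝ ℝ).smulRight (C - B)
  have hM : ∀ u : ℝ × ℝ, M u = u.1 • (A - B) + u.2 • (C - B) := fun u => rfl
  have inj : Function.Injective M := by
    rw [injective_iff_map_eq_zero]
    rintro ⟨X, Y⟩ hu
    have e0 := congrArg (fun v : E => v 0) hu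
    have e1 := congrArg (fun v : E => v 1) hu
    simp only [hM, PiLp.add_apply, PiLp.smul_apply, PiLp.sub_apply, smul_eq_mul,
      PiLp.zero_apply] at e0 e1
    refine Prod.ext (mul_left_cancel₀ hδ ?_) (mul_left_cancel₀ hδ ?_)
    · simp only [ar, Prod.fst_zero]
      linear_combination (C 1 - B 1) * e0 - (C 0 - B 0) * e1
    · simp only [ar, Prod.snd_zero]
      linear_combination (A 0 - B 0) * e1 - (A 1 - B 1) * e0
  let N := LinearMap.linearEquivOfInjective M inj (by simp)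
  have hN : ∀ u, N u = M u := fun u => rfl
  have hK : Crn {u | B + M u ∈ F} := by
    refine ⟨fun p hp q hq a b ha hb hab => ?_, hF.isClosed.preimage (f := fun u => B + M u) ?_,
      fun u hu => ?_, by simpa [hM] using hB, by simpa [hM] using hA, by simpa [hM] using hC⟩
    · have := hc hp hq ha hb hab
      rw [Set.mem_ofPred_eq, map_add, map_smul, map_smul]
      convert this using 1
      rw [show b = 1 - a by linarith]
      module
    · simp only [hM]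
      fun_prop
    · obtain ⟨X, Y, x0, x1, y0, y1, e⟩ := hP _ hu
      have : u = (X, Y) := inj (by
        rw [add_assoc] at e
        exact add_left_cancel e)
      rw [this]
      exact ⟨x0, y0, y1, x1⟩
  have hx : ∀ x, x ∈ F ↔ N.symm (x - B) ∈ {u | B + M u ∈ F} := fun x => by
    rw [Set.mem_ofPred_eq, ← hN, LinearEquiv.apply_symm_apply, add_sub_cancel]
  obtain ⟨s, h | h⟩ := hK.ex
  · exact ⟨_, s, N.symm, B, h, hx⟩
  · exact ⟨_, s, N.symm.trans (LinearEquiv.prodComm ℝ ℝ ℝ), B, h, hx⟩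

end Pool.Agent.MP_34f9b1_co.Cor
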