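import Pool.Agent.MP_34f9b1_co.Cor.Nfd
import Pool.Agent.MP_34f9b1_co.Cor.Dat

namespace Pool.Agent.MP_34f9b1_co.Cor

/-- The area left after the three largest pieces. -/
noncomputable def rR (s x y z : ℝ) : ℝ := (1 - s / 2) * (1 / 2 - x ^ 2 - y ^ 2 - z ^ 2)

/-- Capacity of the strategy with the largest piece at the apex. -/
noncomputable def pB (s x y z v g : ℝ) : ℝ :=
  g * (1 - y - (1 - s / 2) * (z + v)) + (1 - s) * (1 - v) * (1 - x - y - g) +
    s * ((1 - y) ^ 2 - x ^ 2) / 2 - s * g * (1 - y) - (1 - s) * (1 - v - 2 * x) ^ 2 / 8 - s / 512 +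
    (1 - s / 2) * v ^ 2

theorem prow {s v : ℝ} {t : List ℝ} (s0 : 0 ≤ s) (s1 : s ≤ 1) (L X : ℝ)
    (hs : (v :: t).Pairwise (· ≥ ·)) (hl : ∀ a ∈ v :: t, 0 ≤ a) :
    ok s L X (v :: t) ∨ ∃ o f r, v :: t = o ++ f :: r ∧ ok s L X o ∧ 0 ≤ f ∧ f ≤ v ∧
      (1 - s / 2) * v * (v - f) + f * (L - X - s * f / 2) + (1 - s / 2) * sq2 r ≤
        (1 - s / 2) * sq2 (v :: t) ∧
      (1 - s / 2) * v ^ 2 + (1 - s / 2) * sq2 r ≤ (1 - s / 2) * sq2 (v :: t) := by
  rcases split s0 L (v :: t) X hl with k | ⟨o, f, r, e, k, hf⟩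
  · exact Or.inl k
  have f0 : 0 ≤ f := hl f (by simp [e])
  have a4 := mul_le_mul_of_nonneg_left hf.le f0
  have hm : 0 ≤ 1 - s / 2 := by linarith
  refine Or.inr ⟨o, f, r, e, k, f0, ?_⟩
  rcases o with _ | ⟨v', o⟩
  · obtain ⟨rfl, rfl⟩ := List.cons.inj e
    rw [List.sum_nil] at a4
    rw [sq2_cons]
    exact ⟨le_rfl, by linarith, by linarith⟩
  · obtain ⟨rfl, e'⟩ := List.cons.inj e
    have e'' : t = o ++ f :: r := e'
    subst e''
    obtain ⟨q1, q2⟩ := List.pairwise_cons.1 hs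
    obtain ⟨a1, a2⟩ := sq2_split f0 r o fun a ha =>
      (List.pairwise_append.1 q2).2.2 a ha f (by simp)
    have a3 := mul_le_mul_of_nonneg_left a1 hm
    have a5 := mul_nonneg hm (mul_nonneg f0 a2)
    have a6 := mul_nonneg hm (sq_nonneg f)
    rw [List.sum_cons] at a4
    rw [sq2_cons]
    exact ⟨q1 f (by simp), by linarith, by linarith⟩

section strat
variable {K : Set (ℝ × ℝ)} {s x y z v : ℝ} {t : List ℝ} (hK : NF K s)
  (hs : (x :: y :: z :: v :: t).Pairwise (· ≥ ·)) (hl : ∀ a ∈ x :: y :: z :: v :: t, 0 ≤ a)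
  (hA : x ^ 2 + y ^ 2 + z ^ 2 + sq2 (v :: t) ≤ 1 / 2)
include hK hs hl hA

omit hK in
theorem facts : 0 ≤ v ∧ v ≤ z ∧ z ≤ y ∧ y ≤ x ∧ x < 1 ∧ x + y ≤ 1 ∧ (v :: t).Pairwise (· ≥ ·) ∧
    (z :: v :: t).Pairwise (· ≥ ·) ∧ (y :: z :: v :: t).Pairwise (· ≥ ·) ∧ ∀ a ∈ v :: t, 0 ≤ a := by
  obtain ⟨h1, h2⟩ := List.pairwise_cons.1 hs
  obtain ⟨h3, h4⟩ := List.pairwise_cons.1 h2
  obtain ⟨h5, h6⟩ := List.pairwise_cons.1 h4
  have := sq2_nonneg (v :: t)
  exact ⟨hl v (by simp), h5 v (by simp), h3 z (by simp), h1 y (by simp), by nlinarith,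
    by nlinarith [sq_nonneg (x - y), sq_nonneg z], h6, h4, h2, fun a ha =>
      hl a (List.mem_cons_of_mem _ (List.mem_cons_of_mem _ (List.mem_cons_of_mem _ ha)))⟩

omit hs hl in
theorem rest : (1 - s / 2) * sq2 (v :: t) ≤ rR s x y z :=
  mul_le_mul_of_nonneg_left (by linarith) (by linarith [hK.s1])

theorem strat0 (hx : x ≤ 5 / 16 ∨ 5 / 8 ≤ x) : Pk K (x :: y :: z :: v :: t) 0 1 := by
  obtain ⟨v0, vz, zy, yx, x1, xy, p0, p1, p2, t0⟩ := facts hs hl hA
  have s0 := hK.s0
  have s1 := hK.s1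
  have := nfd hK le_rfl _ (y :: z :: v :: t) x 0 le_rfl hs
    (fun a ha => hl a (List.mem_cons_of_mem _ ha))
    (by linarith) x1 le_rfl (by linarith) (pot1 s0 s1 (by
      have k1 : sq2 (y :: z :: v :: t) ≤ 1 / 2 - x ^ 2 := by
        rw [sq2_cons, sq2_cons]
        linarith
      have k2 : 1 / 2 - x ^ 2 ≤ 55 / 64 * (1 - x) ^ 2 := by
        rcases hx with hx | hx <;> nlinarith
      have k3 := mul_le_mul_of_nonneg_left (k1.trans k2) (show 0 ≤ 1 - s / 2 by linarith)
      have k4 := mul_nonneg (sq_nonneg (s - 9 / 32)) (sq_nonneg (1 - x))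
      have k5 := sq_nonneg (1 - x)
      simp only [P1]
      linarith))
  simpa using this

omit hs hl hA in
theorem bot {h : ℝ} {o : List ℝ} (h0 : 0 ≤ h) (h1 : h < 1) (p : (h :: o).Pairwise (· ≥ ·))
    (q : ∀ a ∈ o, 0 ≤ a) (k : ok s (1 - h) 0 o) : Pk K (h :: o) 0 (0 + h) := by
  have := mul_nonneg (sub_nonneg.2 hK.s1) (sub_pos.2 h1).le
  exact row (L := 1 - h) hK h0 h1 le_rfl (by linarith) (by linarith) (by linarith) (by linarith)
    (List.pairwise_cons.1 p).2 (fun a ha => ⟨q a ha, (List.pairwise_cons.1 p).1 a ha⟩) k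

theorem stratA1 (n : ¬Pk K (x :: y :: z :: v :: t) 0 1) : ¬Pot s 0 (1 - x - z) z (rR s x y z) ∧
    ∃ L f E, Room s (1 - x - z) z L ∧ 0 ≤ f ∧ f ≤ v ∧ 0 ≤ E ∧
      (1 - s / 2) * v * (v - f) + f * (L - s * f / 2) + E ≤ rR s x y z ∧
      (1 - s / 2) * v ^ 2 + E ≤ rR s x y z ∧ (1 - x - z < f ∨ ¬Pot s 0 (1 - x - z - f) f E) := by
  obtain ⟨v0, vz, zy, yx, x1, xy, p0, p1, p2, t0⟩ := facts hs hl hA
  have s0 := hK.s0
  have s1 := hK.s1
  have hr := rest hK hA
  have R1 := bot (o := [y]) hK (show 0 ≤ x by linarith) x1 (by simpa using yx)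
    (by simp only [List.mem_singleton, forall_eq]; linarith) (show 0 + y ≤ 1 - x by linarith)
  rw [zero_add] at R1
  have n' : ¬Pk K (z :: v :: t) x 1 := fun h => n (R1.stack h (by linarith) x1.le)
  refine ⟨fun h => n' ?_, ?_⟩
  · simpa using nfd hK le_rfl _ (v :: t) z x le_rfl p1 t0 (by linarith) (by linarith) (by linarith)
      (by linarith) fun w u a b c => hr.trans (h w u a b c)
  obtain ⟨L, L0, L1, L2, L3, hL⟩ := room (Y := x) (h := z) s0 s1 (by linarith) (by linarith)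
  have R0 : ∀ o : List ℝ, o.Pairwise (· ≥ ·) → (∀ a ∈ o, a ∈ v :: t) → ok s L 0 o →
      Pk K (z :: o) x (x + z) := fun o h1 h2 h3 =>
    row hK (by linarith) (by linarith) (by linarith) L0 L1 L2 L3 h1
      (fun a ha => ⟨t0 a (h2 a ha), (List.pairwise_cons.1 p1).1 a (h2 a ha)⟩) h3
  rcases prow s0 s1 L 0 p0 t0 with k | ⟨o, f, r, e, k, f0, fv, a1, a2⟩
  · exact absurd ((R0 _ p0 (fun _ h => h) k).mono (by linarith)) n'
  refine ⟨L, f, (1 - s / 2) * sq2 r, hL, f0, fv, mul_nonneg (by linarith) (sq2_nonneg r),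
    by linarith, by linarith, ?_⟩
  by_contra hc
  push Not at hc
  rw [e] at p0 n'
  obtain ⟨q1, q2, -⟩ := List.pairwise_append.1 p0
  have R2 := nfd hK le_rfl _ r f (x + z) le_rfl q2 (fun a ha => t0 a (by simp [e, ha])) f0
    (by linarith) (by linarith) (by linarith [hc.1]) (by convert hc.2 using 1; ring)
  rw [sub_zero] at R2
  exact n' ((R0 o q1 (fun a ha => by simp [e, ha]) k).stack R2 (by linarith) (by linarith))

theorem stratA2 (n : ¬Pk K (x :: y :: z :: v :: t) 0 1) (hc : (1 - s / 2) * (y + z) ≤ 1 - x) :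
    ∃ f E, 0 ≤ f ∧ f ≤ v ∧ (1 - s / 2) * v * (v - f) +
      f * (1 - x - (1 - s / 2) * (y + z) - s * f / 2) + E ≤ rR s x y z ∧
      (1 - s / 2) * v ^ 2 + E ≤ rR s x y z ∧ ¬Pot s 0 (1 - x - f) f E := by
  obtain ⟨v0, vz, zy, yx, x1, xy, p0, p1, p2, t0⟩ := facts hs hl hA
  have s0 := hK.s0
  have s1 := hK.s1
  have hr := rest hK hA
  have l0 : ∀ a ∈ y :: z :: v :: t, 0 ≤ a := fun a ha => hl a (List.mem_cons_of_mem _ ha)
  rcases prow s0 s1 (1 - x) (0 + (1 - s / 2) * (y + z)) p0 t0 with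
    k | ⟨o, f, r, e, k, f0, fv, a1, a2⟩
  · exact absurd ((bot hK (show 0 ≤ x by linarith) x1 hs l0
      ⟨by linarith, by linarith, k⟩).mono (by linarith)) n
  refine ⟨f, (1 - s / 2) * sq2 r, f0, fv, by linarith, by linarith, fun hP => n ?_⟩
  rw [e] at hs l0 ⊢
  obtain ⟨q1, q2, -⟩ := List.pairwise_append.1
    (show ((x :: y :: z :: o) ++ f :: r).Pairwise (· ≥ ·) from hs)
  have R2 := nfd hK le_rfl _ r f (0 + x) le_rfl q2 (fun a ha => l0 a (by simp [ha])) f0
    (by linarith) (by linarith) (by linarith) (by convert hP using 1; ring)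
  rw [sub_zero] at R2
  exact (bot (o := y :: z :: o) hK (show 0 ≤ x by linarith) x1 q1
    (fun a ha => l0 a (List.mem_append_left (f :: r) ha)) ⟨by linarith, by linarith, k⟩).stack R2
    (by linarith) (by linarith)

theorem stratB (hx : 5 / 16 ≤ x)
    (h : ∀ g, g ≤ v → g ≤ 1 - x - y → rR s x y z < pB s x y z v g) :
    Pk K ((y :: z :: v :: t) ++ [x]) 0 1 := by
  obtain ⟨v0, vz, zy, yx, x1, xy, p0, p1, p2, t0⟩ := facts hs hl hA
  have s0 := hK.s0
  have s1 := hK.s1
  have u0 := sub_nonneg.2 s1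
  have hr := rest hK hA
  have hm : 0 ≤ 1 - s / 2 := by linarith
  have Rx := row (o := []) (L := 0) (Y := 1 - x) hK (show 0 ≤ x by linarith) x1 (by linarith) le_rfl
    (by nlinarith) (by linarith) (by nlinarith) List.Pairwise.nil (by simp) trivial
  rw [sub_add_cancel] at Rx
  refine Pk.stack (Z := 1 - x) ?_ Rx (by linarith) (by linarith)
  have l0 : ∀ a ∈ z :: v :: t, 0 ≤ a := fun a ha =>
    hl a (List.mem_cons_of_mem _ (List.mem_cons_of_mem _ ha))
  have t1 : ∀ a ∈ t, 0 ≤ a := fun a ha => t0 a (List.mem_cons_of_mem _ ha)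
  have ls := mul_nonneg u0 (sq_nonneg (1 - v - 2 * x))
  rw [sq2_cons] at hr
  by_cases hc : (1 - s / 2) * (z + v) ≤ 1 - y
  · rcases split s0 (1 - y) t (0 + (1 - s / 2) * (z + v)) t1 with k | ⟨o, g, r, rfl, k, hg⟩
    · exact (bot hK (show 0 ≤ y by linarith) (by linarith) p2 l0
        ⟨by linarith, by linarith, k⟩).mono (by linarith)
    obtain ⟨q1, q2, q3⟩ := List.pairwise_append.1
      (show ((y :: z :: v :: o) ++ g :: r).Pairwise (· ≥ ·) from p2)
    have g0 := t1 g (by simp)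
    have gv : g ≤ v := q3 v (by simp) g (by simp)
    obtain ⟨a1, a2⟩ := sq2_split g0 r o fun a ha => q3 a (by simp [ha]) g (by simp)
    have a3 := mul_le_mul_of_nonneg_left a1 hm
    have a4 := mul_le_mul_of_nonneg_left hg.le g0
    have a5 := mul_nonneg hm (mul_nonneg g0 a2)
    have a6 := mul_nonneg hm (sq2_nonneg r)
    have gt : g ≤ 1 - x - y := by
      rcases le_total v (1 - x - y) with c | c
      · linarith
      · have := h _ c le_rfl
        simp only [pB] at this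
        exact last (L := 1 - y - (1 - s / 2) * (z + v)) (E := rR s x y z - (1 - s / 2) * v ^ 2) s1
          (by linarith) (by linarith) (by linarith) (by linarith)
    have R2 := nfd hK (show 0 ≤ x by linarith) _ r g (0 + y) le_rfl q2
      (fun a ha => t1 a (by simp [ha])) g0 (by linarith) (by linarith) (by linarith)
      (Pot.mono s1 gv (pot_low s0 s1 hx v0 (by
        have b1 := h g gv gt
        simp only [pB] at b1
        linarith)))
    exact (bot (o := z :: v :: o) hK (show 0 ≤ y by linarith) (by linarith) q1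
      (fun a ha => l0 a (List.mem_append_left (g :: r) ha)) ⟨by linarith, by linarith, k⟩).stack R2
      (by linarith) (by linarith)
  · have hc' := (not_le.1 hc).le
    have a6 := mul_nonneg hm (sq2_nonneg t)
    have gt : v ≤ 1 - x - y := by
      by_contra c
      have b1 := h _ (not_le.1 c).le le_rfl
      have b2 := mul_nonneg (show 0 ≤ 1 - x - y by linarith) (sub_nonneg.2 hc')
      have b3 := mul_nonneg s0 (sq_nonneg (1 - x - y))
      simp only [pB] at b1
      linarith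
    have R2 := nfd hK (show 0 ≤ x by linarith) _ t v (0 + y) le_rfl p0 t1 v0 (by linarith)
      (by linarith) (by linarith) (pot_low s0 s1 hx v0 (by
        have b1 := h v le_rfl gt
        have b2 := mul_nonneg v0 (sub_nonneg.2 hc')
        have b3 := mul_nonneg s0 (sq_nonneg v)
        simp only [pB] at b1
        linarith))
    exact (bot (o := [z]) hK (show 0 ≤ y by linarith) (by linarith) (by simpa using zy)
      (by simp only [List.mem_singleton, forall_eq]; linarith)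
      (show 0 + z ≤ 1 - y by linarith)).stack R2 (by linarith) (by linarith)

theorem pack4 : ∃ l, (x :: y :: z :: v :: t).Perm l ∧ Pk K l 0 1 := by
  obtain ⟨v0, vz, zy, yx, x1, xy, p0, p1', p2', t0⟩ := facts hs hl hA
  have s0 := hK.s0
  have s1 := hK.s1
  by_contra hc
  have n1 : ¬Pk K (x :: y :: z :: v :: t) 0 1 := fun h => hc ⟨_, List.Perm.refl _, h⟩
  have hx : ¬(x ≤ 5 / 16 ∨ 5 / 8 ≤ x) := fun h => n1 (strat0 hK hs hl hA h)
  push Not at hx
  have nB : ¬∀ g, g ≤ v → g ≤ 1 - x - y → rR s x y z < pB s x y z v g := fun h =>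
    hc ⟨_, (List.perm_append_singleton _ _).symm, stratB hK hs hl hA hx.1.le h⟩
  push Not at nB
  obtain ⟨g, g1, g2, g3⟩ := nB
  have mono : ∀ g', g ≤ g' → pB s x y z v g' ≤ rR s x y z := fun g' h => by
    have b1 := mul_nonneg (sub_nonneg.2 h)
      (mul_nonneg (sub_nonneg.2 s1) (sub_nonneg.2 (vz.trans zy)))
    have b2 := mul_nonneg (sub_nonneg.2 h) (mul_nonneg (show 0 ≤ 1 - s / 2 by linarith)
      (show 0 ≤ z + v by linarith))
    simp only [pB] at g3 ⊢
    linarith
  have m6 := mono _ g1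
  have m7 := mono _ g2
  have m4 : x ^ 2 + y ^ 2 + z ^ 2 + v ^ 2 ≤ 1 / 2 := by
    rw [sq2_cons] at hA
    linarith [sq2_nonneg t]
  have y2 : y ≤ 1 / 2 := by linarith
  have i2 : ∀ u : ℝ, 0 ≤ u → u ≤ y → ((0 : ℤ) : ℝ) ≤ 1024 * u ∧ 1024 * u ≤ ((512 : ℤ) : ℝ) := by
    intro u h1 h2
    push_cast
    constructor <;> linarith
  have fin : ∀ (k : List ℕ) (T : Tr) (f : ℝ) (b : ℤ), 0 ≤ f → f ≤ v → 1024 * f ≤ b →
      chk k T 0 1024 320 640 0 512 0 512 0 512 0 b = true → (∀ j ∈ k, j < 26) →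
      (∀ j ∈ k, 8 ≤ j →
        hy j (1024 * s) (1024 * x) (1024 * y) (1024 * z) (1024 * v) (1024 * f) ≤ 0) → False := by
    intro k T f b f0 fv fb hT hk hH
    refine chk_snd k (s := 1024 * s) (x := 1024 * x) (y := 1024 * y) (z := 1024 * z)
      (v := 1024 * v) (f := 1024 * f) hk (fun j hj => ?_) (by linarith) (by linarith) (by linarith)
      (by linarith) T _ _ _ _ _ _ _ _ _ _ _ _ hT le_rfl (by norm_num) le_rfl
      (by push_cast; constructor <;> linarith)
      (by push_cast; constructor <;> linarith [hx.1, hx.2]) (i2 y (by linarith) le_rfl)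
      (i2 z (by linarith) zy) (i2 v v0 (vz.trans zy)) ⟨by push_cast; linarith, fb⟩
    by_cases h8 : 8 ≤ j
    · exact hH j hj h8
    simp only [pB, rR] at m6 m7
    interval_cases j <;> simp only [hy, hB, r8] <;> linarith
  have fb : ∀ f, f ≤ v → 1024 * f ≤ ((512 : ℤ) : ℝ) := fun f h => by
    push_cast
    linarith
  rcases le_total (1 - x) ((1 - s / 2) * (y + z)) with c | c
  · obtain ⟨n2, L, f, E, hL, f0, fv, E0, a1, a2, n3⟩ := stratA1 hK hs hl hA n1
    have b2 := fun h => not_le.1 (mt (pot2 s0 s1 h) n2)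
    have b3 := fun h h' => not_le.1 (mt (pot2 (t := 1 - x - z - f) (h := f) (E := E) s0 s1 h) h')
    have b4 := fun h' => not_le.1 (mt (pot1 (t := 1 - x - z - f) (h := f) (E := E) s0 s1) h')
    simp only [P1, P2, rR] at b2 b3 b4 a1 a2
    rcases hL with ⟨c1, rfl⟩ | ⟨c1, rfl⟩ | ⟨-, c1, c2'⟩
    · rcases n3 with n3 | n3
      · refine fin _ _ f _ f0 fv (fb f fv) chk4 (by decide) ?_
        simp only [List.forall_mem_cons, List.not_mem_nil, false_imp_iff, implies_true, and_true,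
          Nat.reduceLeDiff, true_and, forall_const, hy, hQ, c2, r8]
        refine ⟨?_, ?_, ?_, ?_⟩ <;> linarith
      · rcases le_total (1 - x - z - f) ((1 - f) / 2) with d | d
        · have := b3 d n3
          refine fin _ _ f _ f0 fv (fb f fv) chk5 (by decide) ?_
          simp only [List.forall_mem_cons, List.not_mem_nil, false_imp_iff, implies_true, and_true,
            Nat.reduceLeDiff, true_and, forall_const, hy, hQ, c2, r8, p2]
          refine ⟨?_, ?_, ?_⟩ <;> linarith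
        · have := b4 n3
          refine fin _ _ f _ f0 fv (fb f fv) chk6 (by decide) ?_
          simp only [List.forall_mem_cons, List.not_mem_nil, false_imp_iff, implies_true, and_true,
            Nat.reduceLeDiff, true_and, forall_const, hy, hQ, c2, r8, p1]
          refine ⟨?_, ?_, ?_, ?_⟩ <;> linarith
    · have := b2 c1
      rcases n3 with n3 | n3
      · refine fin _ _ f _ f0 fv (fb f fv) chk2 (by decide) ?_
        simp only [List.forall_mem_cons, List.not_mem_nil, false_imp_iff, implies_true, and_true,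
          Nat.reduceLeDiff, true_and, forall_const, hy, hQ, c2, r8, p2]
        refine ⟨?_, ?_, ?_, ?_⟩ <;> linarith
      · have := b3 (by linarith) n3
        refine fin _ _ f _ f0 fv (fb f fv) chk3 (by decide) ?_
        simp only [List.forall_mem_cons, List.not_mem_nil, false_imp_iff, implies_true, and_true,
          Nat.reduceLeDiff, true_and, forall_const, hy, hQ, c2, r8, p2]
        refine ⟨?_, ?_, ?_, ?_⟩ <;> linarith
    · have d1 := mul_le_mul_of_nonneg_left c2' s0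
      have d2 := mul_nonneg (sub_nonneg.2 s1) (show 0 ≤ 1 - z by linarith)
      have := b2 (by linarith)
      refine fin _ _ 0 _ le_rfl v0 (by simp) chk1 (by decide) ?_
      simp only [List.forall_mem_cons, List.not_mem_nil, false_imp_iff, implies_true, and_true,
        Nat.reduceLeDiff, true_and, forall_const, hy, c2, r8, p2]
      refine ⟨?_, ?_, ?_⟩ <;> linarith
  · obtain ⟨f, E, f0, fv, a1, a2, n3⟩ := stratA2 hK hs hl hA n1 c
    have b4 := not_le.1 (mt (pot1 s0 s1) n3)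
    simp only [P1, rR] at b4 a1 a2
    refine fin _ _ f _ f0 fv (fb f fv) chk7 (by decide) ?_
    simp only [List.forall_mem_cons, List.not_mem_nil, false_imp_iff, implies_true, and_true,
      Nat.reduceLeDiff, true_and, forall_const, hy, hQ, c2, r8, p1]
    refine ⟨?_, ?_, ?_⟩ <;> linarith

end strat

end Pool.Agent.MP_34f9b1_co.Cor
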