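import Pool.Agent.MP_34f9b1_co.Cor.Row

namespace Pool.Agent.MP_34f9b1_co.Cor

/-- The amount `E` is below the capacity of the rows between depth `t` and depth `t0`
(depth is measured from the top) when the current row has height `h`. -/
def Pot (s t0 t h E : ℝ) : Prop :=
  ∀ w v, 0 ≤ w → t0 + s * w ≤ v → v ≤ t → E ≤ t0 * w + s * w ^ 2 / 2 +
    (1 - s) * (1 - h) / 2 * (v - (t0 + s * w)) + (v ^ 2 - (t0 + s * w) ^ 2) / 2 +
    (1 - s) * (1 - h) * (t - v) + s * (t ^ 2 - v ^ 2) / 2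

theorem Pot.mono {s t0 t h h' E : ℝ} (s1 : s ≤ 1) (hh : h' ≤ h) (hP : Pot s t0 t h E) :
    Pot s t0 t h' E := by
  intro w v hw h1 h2
  have ha : 0 ≤ (1 - s) * (h - h') := mul_nonneg (by linarith) (by linarith)
  linarith [hP w v hw h1 h2, mul_nonneg ha (sub_nonneg.2 h1), mul_nonneg ha (sub_nonneg.2 h2)]

theorem last {s τ f L E : ℝ} (s1 : s ≤ 1) (hτ : 0 ≤ τ)
    (h1 : E ≤ τ * (L - s * τ / 2)) (h2 : f * (L - s * f / 2) ≤ E) (h3 : (1 - s / 2) * f ^ 2 ≤ E) :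
    f ≤ τ := by
  by_contra hc
  have hc : τ < f := not_le.1 hc
  have hf : 0 < f := by linarith
  by_cases hL : L ≤ s * (f + τ) / 2
  · have k1 : τ * (L - s * τ / 2) ≤ τ * (s * f / 2) := mul_le_mul_of_nonneg_left (by linarith) hτ
    have k2 : 0 < (1 - s / 2) * (f * (f - τ)) := mul_pos (by linarith) (mul_pos hf (by linarith))
    have k3 : 0 ≤ (1 - s) * (f * τ) := mul_nonneg (by linarith) (mul_nonneg hf.le hτ)
    nlinarith
  · have := mul_pos (sub_pos.2 hc) (sub_pos.2 (not_le.1 hL))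
    nlinarith

/-- The three possible values of the room in a row. -/
def Room (s t h L : ℝ) : Prop :=
  ((1 - h) / 2 ≤ t ∧ L = (1 - s) * (1 - h) + s * t) ∨
    (t ≤ (1 - h) / 2 ∧ L = (1 - s) * (1 - h) / 2 + t) ∨ (0 < s ∧ s * L = t ∧ L ≤ (1 - h) / 2)

theorem step {s t0 t h f L E E' : ℝ} (s0 : 0 ≤ s) (s1 : s ≤ 1) (h0 : 0 ≤ t0) (ht : t0 ≤ t)
    (f0 : 0 ≤ f) (fh : f ≤ h) (hE : 0 ≤ E') (hL : Room s t h L)
    (h2 : f * (L - s * f / 2) + E' ≤ E) (h3 : (1 - s / 2) * f ^ 2 + E' ≤ E) (hP : Pot s t0 t h E) :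
    f ≤ t - t0 ∧ Pot s t0 (t - f) f E' := by
  have u0 : 0 ≤ 1 - s := by linarith
  rcases hL with ⟨-, hL⟩ | ⟨hc, hL⟩ | ⟨sp, hL, hc⟩
  · subst hL
    refine ⟨last (L := (1 - s) * (1 - h) + s * t) (E := E) s1 (by linarith) ?_ (by linarith)
      (by linarith), Pot.mono s1 fh fun w v hw h1 hv => ?_⟩
    · linarith [hP 0 t0 le_rfl (by linarith) ht]
    · linarith [hP w v hw h1 (by linarith)]
  · subst hL
    refine ⟨last (L := (1 - s) * (1 - h) / 2 + t) (E := E) s1 (by linarith) ?_ (by linarith)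
      (by linarith), Pot.mono s1 fh fun w v hw h1 hv => ?_⟩
    · linarith [hP 0 t le_rfl (by linarith) le_rfl, mul_nonneg u0 (sq_nonneg (t - t0))]
    · have := mul_nonneg (mul_nonneg u0 (sub_nonneg.2 hv))
        (show 0 ≤ 1 - h - (t - f + v) by linarith)
      linarith [hP w t hw (by linarith) le_rfl, mul_nonneg u0 (sq_nonneg f)]
  · obtain ⟨q, hq⟩ : ∃ q, s * q = t0 := ⟨t0 / s, mul_div_cancel₀ _ sp.ne'⟩
    subst hq hL
    have hvL : q ≤ L := le_of_mul_le_mul_left ht sp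
    have k := hP (L - q) (s * L) (by linarith) (by linarith) le_rfl
    have hss : 0 ≤ 1 - s ^ 2 := by nlinarith
    refine ⟨last (L := L) (E := E) s1 (by linarith) ?_ (by linarith) (by linarith),
      Pot.mono s1 fh fun w v hw h1 hv => ?_⟩
    · linarith [mul_nonneg (mul_nonneg s0 hss) (sq_nonneg (L - q))]
    · obtain ⟨g, hg⟩ : ∃ g, s * g = f := ⟨f / s, mul_div_cancel₀ _ sp.ne'⟩
      obtain ⟨r, hr⟩ : ∃ r, s * r = v := ⟨v / s, mul_div_cancel₀ _ sp.ne'⟩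
      subst hg hr
      have hg0 : 0 ≤ g := le_of_mul_le_mul_left (by linarith) sp
      have a1 : q + w ≤ r := le_of_mul_le_mul_left (by linarith) sp
      have a2 : r ≤ L - g := le_of_mul_le_mul_left (by linarith) sp
      have a3 : 0 ≤ q := le_of_mul_le_mul_left (by linarith) sp
      have k1 := mul_nonneg (mul_nonneg s0 hss) (sq_nonneg g)
      have k2 := mul_nonneg (mul_nonneg (mul_nonneg s0 u0) (sub_nonneg.2 a1))
        (show 0 ≤ 1 - h - (r + (q + w)) by linarith)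
      have k3 := mul_nonneg (mul_nonneg (mul_nonneg s0 u0) (sub_nonneg.2 a2))
        (show 0 ≤ 1 - h - (L - g + r) by linarith)
      have k4 := mul_nonneg (mul_nonneg (mul_nonneg s0 u0) (sub_nonneg.2 a2))
        (show 0 ≤ 1 - h - s * (L - g + r) by
          nlinarith [mul_nonneg u0 (show 0 ≤ L - g + r by linarith)])
      linarith

theorem room {s Y h : ℝ} (s0 : 0 ≤ s) (s1 : s ≤ 1) (hh : Y + h ≤ 1) (k1 : h < 1) :
    ∃ L, 0 ≤ L ∧ L + s * Y ≤ 1 - h ∧ s * L + Y ≤ 1 - h ∧ L + Y ≤ (1 - h) * ((3 - s) / 2) ∧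
      Room s (1 - Y - h) h L := by
  have u0 : 0 ≤ 1 - s := by linarith
  have ha : 0 ≤ (1 - s) * (1 - h) := mul_nonneg u0 (by linarith)
  have ht : 0 ≤ s * (1 - Y - h) := mul_nonneg s0 (by linarith)
  rcases le_total ((1 - h) / 2) (1 - Y - h) with c | c
  · have k := mul_nonneg u0 (sub_nonneg.2 c)
    refine ⟨_, by linarith, by linarith, ?_, by linarith, Or.inl ⟨c, rfl⟩⟩
    nlinarith [mul_nonneg s0 k, mul_nonneg u0 ha]
  · have k := mul_nonneg u0 (sub_nonneg.2 c)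
    by_cases c' : s * (1 - h) / 2 ≤ 1 - Y - h
    · refine ⟨_, by linarith, by linarith, ?_, by linarith, Or.inr (Or.inl ⟨c, rfl⟩)⟩
      linarith [mul_nonneg u0 (sub_nonneg.2 c')]
    · have sp : 0 < s := by
        rcases s0.eq_or_lt with e | e
        · exact absurd (by rw [← e]; linarith) c'
        · exact e
      obtain ⟨L, e⟩ : ∃ L, s * L = 1 - Y - h := ⟨_, mul_div_cancel₀ _ sp.ne'⟩
      have l0 : 0 ≤ L := le_of_mul_le_mul_left (by linarith) sp
      have l1 : L ≤ (1 - h) / 2 := le_of_mul_le_mul_left (by linarith) sp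
      have k1 := mul_nonneg u0 (sub_nonneg.2 l1)
      have e' : Y = 1 - h - s * L := by linarith
      refine ⟨L, l0, ?_, by linarith, by linarith, Or.inr (Or.inr ⟨sp, e, l1⟩)⟩
      rw [e']
      nlinarith [mul_nonneg s0 k1, mul_nonneg u0 ha]

theorem nfd {K : Set (ℝ × ℝ)} {s t0 : ℝ} (hK : NF K s) (h0 : 0 ≤ t0) : ∀ (n : ℕ) (l : List ℝ)
    (h Y : ℝ), l.length ≤ n → (h :: l).Pairwise (· ≥ ·) → (∀ a ∈ l, 0 ≤ a) → 0 ≤ h → h < 1 →
    0 ≤ Y → Y + h ≤ 1 - t0 → Pot s t0 (1 - Y - h) h ((1 - s / 2) * sq2 l) →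
    Pk K (h :: l) Y (1 - t0) := by
  have s0 := hK.s0
  have s1 := hK.s1
  intro n
  induction n with
  | zero =>
    intro l h Y hn _ _ k0 k1 hY hh _
    rw [List.length_eq_zero_iff.1 (Nat.le_zero.1 hn)]
    exact (row (L := 0) hK k0 k1 hY le_rfl (by nlinarith) (by linarith) (by nlinarith)
      List.Pairwise.nil (by simp) trivial).mono hh
  | succ n ih =>
    intro l h Y hn hs hl k0 k1 hY hh hP
    obtain ⟨hs1, hs2⟩ := List.pairwise_cons.1 hs
    obtain ⟨L, L0, L1, L2, L3, hL⟩ := room (Y := Y) s0 s1 (by linarith) k1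
    rcases split s0 L l 0 hl with k | ⟨o, f, r, rfl, k, hf⟩
    · exact (row hK k0 k1 hY L0 L1 L2 L3 hs2 (fun a ha => ⟨hl a ha, hs1 a ha⟩) k).mono hh
    · obtain ⟨p1, p2, p3⟩ := List.pairwise_append.1 hs2
      have f0 := hl f (by simp)
      have fh : f ≤ h := hs1 f (by simp)
      obtain ⟨q1, q2⟩ := sq2_split f0 r o fun a ha => p3 a ha f (by simp)
      have hm : 0 ≤ 1 - s / 2 := by linarith
      have q3 := mul_le_mul_of_nonneg_left q1 hm
      have q4 := mul_le_mul_of_nonneg_left hf.le f0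
      have q5 := mul_nonneg hm (mul_nonneg f0 q2)
      obtain ⟨c1, c2⟩ := step (E' := (1 - s / 2) * sq2 r) s0 s1 h0 (by linarith) f0 fh
        (mul_nonneg hm (sq2_nonneg r)) hL (by linarith) (by linarith) hP
      have R1 := row hK k0 k1 hY L0 L1 L2 L3 p1
        (fun a ha => ⟨hl a (by simp [ha]), hs1 a (by simp [ha])⟩) k
      have R2 := ih r f (Y + h) (by simp at hn; omega) p2 (fun a ha => hl a (by simp [ha])) f0
        (by linarith) (by linarith) (by linarith) (by convert c2 using 1; ring)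
      exact R1.stack R2 (by linarith) hh

/-- First lower bound for the capacity. -/
noncomputable def P1 (s t h : ℝ) : ℝ :=
  (1 - s) * (1 - h) * t + s * t ^ 2 / 2 - (1 - s ^ 2) * (1 - h) ^ 2 / 8

/-- Second lower bound for the capacity. -/
noncomputable def P2 (s t h : ℝ) : ℝ :=
  (1 - s) * (1 - h) * t / 2 + t ^ 2 / 2 - s * (1 - s) * (1 - h) ^ 2 / 8

theorem pot1 {s t h E : ℝ} (s0 : 0 ≤ s) (s1 : s ≤ 1) (hE : E ≤ P1 s t h) : Pot s 0 t h E := by
  intro w v _ _ _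
  have u0 := sub_nonneg.2 s1
  have k1 := mul_nonneg (mul_nonneg s0 u0) (sq_nonneg (w - (1 - h) / 2))
  have k2 := mul_nonneg u0 (sq_nonneg (v - (1 - h) / 2))
  simp only [P1] at hE
  linarith

theorem pot2 {s t h E : ℝ} (s0 : 0 ≤ s) (s1 : s ≤ 1) (ht : t ≤ (1 - h) / 2) (hE : E ≤ P2 s t h) :
    Pot s 0 t h E := by
  intro w v _ _ hv
  have u0 := sub_nonneg.2 s1
  have k1 := mul_nonneg (mul_nonneg s0 u0) (sq_nonneg (w - (1 - h) / 2))
  have k2 := mul_nonneg (mul_nonneg u0 (sub_nonneg.2 hv)) (show 0 ≤ 1 - h - (t + v) by linarith)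
  simp only [P2] at hE
  linarith

theorem pot_low {s x t h E : ℝ} (s0 : 0 ≤ s) (s1 : s ≤ 1) (hx : 5 / 16 ≤ x) (h0 : 0 ≤ h)
    (hE : E ≤ (1 - s) * (1 - h) * (t - x) + s * (t ^ 2 - x ^ 2) / 2 -
      (1 - s) * (1 - h - 2 * x) ^ 2 / 8 - s / 512) : Pot s x t h E := by
  intro w v hw _ _
  have u0 : 0 ≤ 1 - s := by linarith
  have k0 := mul_nonneg u0 (sq_nonneg (v - (1 - h) / 2))
  have k1 : 0 ≤ (1 - s) * w * ((x - 5 / 16) + s * h / 2) :=
    mul_nonneg (mul_nonneg u0 hw) (by nlinarith [mul_nonneg s0 h0])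
  have k2 : 0 ≤ (1 - s) * (w * (5 / 16 - s / 2) + s * w ^ 2 / 2) + s / 512 := by
    by_cases hs : s ≤ 5 / 8
    · have := mul_nonneg u0 (show 0 ≤ w * (5 / 16 - s / 2) + s * w ^ 2 / 2 by
        have := mul_nonneg hw (show 0 ≤ 5 / 16 - s / 2 by linarith)
        positivity)
      linarith
    · have sp : 0 < s := by linarith
      have j1 := mul_nonneg u0 (sq_nonneg (s * w + (5 / 16 - s / 2)))
      have j2 : (1 - s) * (5 / 16 - s / 2) ^ 2 ≤ s ^ 2 / 256 := by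
        linarith [mul_nonneg (show 0 ≤ s - 5 / 8 by linarith) (sq_nonneg (s - 7 / 8)),
          sq_nonneg (s - 7 / 9)]
      refine le_of_mul_le_mul_left ?_ sp
      linarith
  linarith

end Pool.Agent.MP_34f9b1_co.Cor
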